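import Pool.Agent.Lib.NP.Link

/-! Polynomial-time decoders, and a criterion for membership in `NP` with typed witnesses. -/

namespace Pool.Agent.Lib.NP

open N487b59b3 N68a2faeb Polynomial

/-- The encoding of `α` has a polynomial-time left inverse. -/
def HasDec (α : Type) [Enc α] : Prop := ∃ d : List Bool → α, PT d ∧ ∀ a, d (enc a) = a

theorem HasDec.bool : HasDec Bool := ⟨fun l => l.headD false, by fun_prop, fun _ => rfl⟩

theorem HasDec.nat : HasDec ℕ := ⟨fun l => l.length, by fun_prop, fun _ => by simp [enc_nat]⟩

def undStep (s : ℕ × List Bool × List Bool) (b : Bool) : ℕ × List Bool × List Bool :=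
  if s.1 = 0 then (bif b then (1, s.2) else (2, s.2))
  else if s.1 = 1 then (0, s.2.1 ++ [b], s.2.2) else (2, s.2.1, s.2.2 ++ [b])

theorem undStep_rest (l a r : List Bool) : l.foldl undStep (2, a, r) = (2, a, r ++ l) := by
  induction l generalizing r with
  | nil => simp
  | cons b l ih => simp [undStep, ih]

theorem undStep_delimit (x l a : List Bool) :
    (delimit x ++ l).foldl undStep (0, a, []) = (2, a ++ x, l) := by
  induction x generalizing a with
  | nil => simp [delimit, undStep, undStep_rest]
  | cons b x ih =>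
    have := ih (a ++ [b])
    simpa [delimit, undStep] using this

theorem pt_und : PT (fun l : List Bool => l.foldl undStep (0, [], [])) := by
  refine PT.foldl_add (f := fun _ s b => undStep s b) (by unfold undStep; fun_prop) (by fun_prop)
    (by fun_prop) 20 ?_
  rintro a ⟨m, x, y⟩ b
  unfold undStep
  split_ifs with h1 h2
  · cases b <;> simp <;> omega
  · simp; omega
  · simp; omega

theorem HasDec.prod {α β : Type} [Enc α] [Enc β] (ha : HasDec α) (hb : HasDec β) :
    HasDec (α × β) := by
  obtain ⟨da, h1, h2⟩ := ha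
  obtain ⟨db, h3, h4⟩ := hb
  refine ⟨fun l => (da (l.foldl undStep (0, [], [])).2.1, db (l.foldl undStep (0, [], [])).2.2),
    (h1.comp pt_und.snd.fst).mk (h3.comp pt_und.snd.snd), ?_⟩
  rintro ⟨a, b⟩
  simp only [enc_prod, undStep_delimit, List.nil_append, h2, h4]

def blkStep (s : Bool × List Bool × List (List Bool)) (b : Bool) :
    Bool × List Bool × List (List Bool) :=
  bif s.1 then (false, s.2.1 ++ [b], s.2.2)
  else bif b then (true, s.2) else (false, [], s.2.2 ++ [s.2.1])

theorem blkStep_delimit (x c : List Bool) (acc : List (List Bool)) :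
    (delimit x).foldl blkStep (false, c, acc) = (false, [], acc ++ [c ++ x]) := by
  induction x generalizing c with
  | nil => simp [delimit, blkStep]
  | cons b x ih =>
    have := ih (c ++ [b])
    simpa [delimit, blkStep] using this

theorem blkStep_blocks (l acc : List (List Bool)) :
    (l.map delimit).flatten.foldl blkStep (false, [], acc) = (false, [], acc ++ l) := by
  induction l generalizing acc with
  | nil => simp
  | cons x l ih =>
    rw [List.map_cons, List.flatten_cons, List.foldl_append, blkStep_delimit, ih]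
    simp

theorem pt_blk : PT (fun l : List Bool => l.foldl blkStep (false, [], [])) := by
  refine PT.foldl_add (f := fun _ s b => blkStep s b) (by unfold blkStep; fun_prop) (by fun_prop)
    (by fun_prop) 20 ?_
  rintro a ⟨m, x, y⟩ b
  unfold blkStep
  cases m <;> cases b <;> simp <;> omega

theorem HasDec.list {α : Type} [Enc α] (ha : HasDec α) : HasDec (List α) := by
  obtain ⟨da, h1, h2⟩ := ha
  refine ⟨fun l => (l.foldl blkStep (false, [], [])).2.2.map da,
    PT.map (f := fun _ b => da b) (h1.comp (by fun_prop)) pt_blk.snd.snd, fun l => ?_⟩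
  change (((l.map enc).map delimit).flatten.foldl blkStep (false, [], [])).2.2.map da = l
  rw [blkStep_blocks]
  simp [Function.comp_def, h2]

/-- Membership in `NP` from a polynomial-time check of typed witnesses of polynomial size. -/
theorem mem_NP_of_check {τ : Type} [Enc τ] (hτ : HasDec τ) {L : DecisionProblem}
    (chk : List Bool → τ → Bool) (hchk : PT (fun p : List Bool × τ => chk p.1 p.2))
    (p : Polynomial ℕ) (h1 : ∀ x, L x = true → ∃ t, sz t ≤ p.eval x.length ∧ chk x t = true)
    (h2 : ∀ x t, chk x t = true → L x = true) : L ∈ NP := by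
  obtain ⟨d, hd, hd'⟩ := hτ
  refine ⟨p, fun q => chk q.1 (d q.2),
    (hchk.comp (g := fun q : List Bool × List Bool => (q.1, d q.2))
      ((PT.fst PT.id').mk (hd.comp (PT.snd PT.id')))).isPolyTime_rel,
    fun x => ⟨fun h => ?_, fun ⟨w, _, hw⟩ => h2 x _ hw⟩⟩
  obtain ⟨t, ht, ht'⟩ := h1 x h
  exact ⟨enc t, ht, by simpa [hd'] using ht'⟩

theorem sz_list_le {α : Type} [Enc α] (l : List α) (B : ℕ) (h : ∀ a ∈ l, sz a ≤ B) :
    sz l ≤ l.length * (2 * B + 1) := by
  induction l with
  | nil => simp
  | cons a l ih =>
    have h1 := ih fun b hb => h b (by simp [hb])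
    have h2 := h a (by simp)
    simp [Nat.add_mul]; omega

theorem ncard_fin_eq_countP {n : ℕ} (P : Fin n → Prop) (Q : ℕ → Bool)
    (h : ∀ i : Fin n, P i ↔ Q i = true) : {i | P i}.ncard = (List.range n).countP Q := by
  classical
  have e1 : {i | P i}.ncard = (Fin.val '' {i | P i}).ncard :=
    (Set.ncard_image_of_injective _ Fin.val_injective).symm
  have e2 : Fin.val '' {i | P i} = ↑((List.range n).filter Q).toFinset := by
    ext k
    simp only [Set.mem_image, Set.mem_ofPred_eq, List.coe_toFinset, List.mem_filter,
      List.mem_range]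
    constructor
    · rintro ⟨i, hi, rfl⟩; exact ⟨i.2, (h i).1 hi⟩
    · rintro ⟨h1, h2⟩; exact ⟨⟨k, h1⟩, (h _).2 h2, rfl⟩
  rw [e1, e2, Set.ncard_coe_finset, List.toFinset_card_of_nodup (List.nodup_range.filter _),
    List.countP_eq_length_filter]

end Pool.Agent.Lib.NP
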