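import Pool.Agent.Lib.NP.CookLevin
import Pool.Agent.Lib.NP.Dec

/-! Every function computed in polynomial time by a Mathlib `FinTM2` is `PT`. -/

namespace Pool.Agent.Lib.NP

open Function Turing N487b59b3 N68a2faeb N793a5b8e

abbrev SimSt := ℕ × List (List ℕ)

/-- One step of a machine given by a table of local rules. -/
def simStep (nK D : ℕ) (tab : List (SimSt × SimSt)) (s : SimSt) : SimSt :=
  ((((tab.filter fun e => decide (e.1 = (s.1, s.2.map fun l => l.take D))).headD
      ((0, []), (0, []))).2).1,
    (List.range nK).map fun k =>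
      (((tab.filter fun e => decide (e.1 = (s.1, s.2.map fun l => l.take D))).headD
        ((0, []), (0, []))).2).2.getD k [] ++ (s.2.getD k []).drop D)

theorem pt_simStep (nK D : ℕ) (tab : List (SimSt × SimSt)) : PT (simStep nK D tab) := by
  unfold simStep
  fun_prop

theorem map_inj_of_mem {α β : Type} (f : α → β) : ∀ l l' : List α, l.map f = l'.map f →
    (∀ a ∈ l, ∀ b ∈ l', f a = f b → a = b) → l = l'
  | [], [], _, _ => rfl
  | [], _ :: _, h, _ => by simp at h
  | _ :: _, [], h, _ => by simp at h
  | a :: l, b :: l', h, H => by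
    simp only [List.map_cons, List.cons.injEq] at h
    rw [H a (by simp) b (by simp) h.1, map_inj_of_mem f l l' h.2 fun x hx y hy =>
      H x (by simp [hx]) y (by simp [hy])]

theorem exists_sim (tm : FinTM2) (e0 : Bool → tm.Γ tm.k₀) (e1 : Bool → tm.Γ tm.k₁)
    (he1 : Injective e1) : ∃ (g : SimSt → SimSt) (s0 : List Bool → SimSt) (out : SimSt → List Bool)
      (C : ℕ), PT g ∧ PT s0 ∧ PT out ∧
      (∀ y t, sz (g^[t] (s0 y)) ≤ C * (y.length + t + 1)) ∧
      ∀ y z n, (flip bind tm.step)^[n] (some (initList tm (y.map e0))) =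
        some (haltList tm (z.map e1)) → ∀ T, n ≤ T → out (g^[T] (s0 y)) = z := by
  classical
  have := tm.kFin; have := tm.ΛFin; have := tm.σFin
  let A : Set (Σ k, tm.Γ k) := Set.range (fun b => ⟨tm.k₀, e0 b⟩) ∪
    Set.range (fun b => ⟨tm.k₁, e1 b⟩) ∪ ⋃ l, syms (tm.m l)
  have hA : A.Finite := ((Set.finite_range _).union (Set.finite_range _)).union
    (Set.finite_iUnion fun l => syms_finite _)
  obtain ⟨D, hD⟩ : ∃ D, ∀ l, depth (tm.m l) ≤ D :=
    ⟨Finset.univ.sup fun l => depth (tm.m l), fun l =>
      Finset.le_sup (f := fun l => depth (tm.m l)) (Finset.mem_univ l)⟩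
  obtain ⟨nA, code, hcode, hcinj⟩ : ∃ (nA : ℕ) (code : (Σ k, tm.Γ k) → ℕ),
      (∀ a ∈ A, code a ≤ nA) ∧ Set.InjOn code A := by
    refine ⟨hA.toFinset.toList.length, fun a => hA.toFinset.toList.idxOf a, fun a ha => ?_,
      fun a ha b _ hab => ?_⟩
    · exact (List.idxOf_lt_length_of_mem (l := hA.toFinset.toList) (a := a) (by simpa using ha)).le
    · exact (List.idxOf_inj (by simpa using ha)).1 hab
  obtain ⟨qcode, hq⟩ : ∃ f : Option tm.Λ × tm.σ → ℕ, Injective f := exists_injective_nat _
  obtain ⟨nQ, hnQ⟩ : ∃ nQ, ∀ a, qcode a ≤ nQ :=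
    ⟨Finset.univ.sup qcode, fun a => Finset.le_sup (Finset.mem_univ a)⟩
  let nK := Fintype.card tm.K
  let eK := Fintype.equivFin tm.K
  let kk : ℕ → tm.K := fun n => if h : n < nK then eK.symm ⟨n, h⟩ else tm.k₀
  have hkk : ∀ k, kk (eK k) = k := fun k => by simp [kk, nK]
  have hkk' : ∀ n < nK, (eK (kk n) : ℕ) = n := fun n h => by simp [kk, h]
  let cc : tm.Cfg → SimSt := fun c => (qcode (c.l, c.var),
    (List.range nK).map fun k => (c.stk (kk k)).map fun a => code ⟨kk k, a⟩)
  have hget : ∀ c k, k < nK → (cc c).2.getD k [] = (c.stk (kk k)).map fun a => code ⟨kk k, a⟩ := by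
    intro c k hk
    simp only [cc]
    rw [List.getD_eq_getElem?_getD, List.getElem?_map, List.getElem?_range hk]
    rfl
  let Good : tm.Cfg → Prop := fun c => ∀ k, ∀ a ∈ c.stk k, (⟨k, a⟩ : Σ k, tm.Γ k) ∈ A
  have hgood : ∀ c, Good c → Good (next tm.m c) := by
    rintro ⟨_ | l, v, S⟩ hc
    · exact hc
    · exact stepAux_good A (tm.m l) (fun x hx => Or.inr (Set.mem_iUnion.2 ⟨l, hx⟩)) v S hc
  have hinit : ∀ y : List Bool, Good (initList tm (y.map e0)) := by
    intro y k a ha
    by_cases hk : k = tm.k₀
    · subst hk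
      have : a ∈ y.map e0 := by simpa [initList] using ha
      obtain ⟨b, -, rfl⟩ := List.mem_map.1 this
      exact Or.inl (Or.inl ⟨b, rfl⟩)
    · simp [initList, hk] at ha
  have hrun : ∀ (y : List Bool) t, Good ((next tm.m)^[t] (initList tm (y.map e0))) := by
    intro y t
    induction t with
    | zero => exact hinit y
    | succ t ih => rw [iterate_succ_apply']; exact hgood _ ih
  let H : Set tm.Cfg := {c | Good c ∧ ∀ k, (c.stk k).length ≤ D}
  have hH : H.Finite := by
    have h1 : ∀ k, {l : List (tm.Γ k) | l.length ≤ D ∧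
        ∀ a ∈ l, a ∈ {a | (⟨k, a⟩ : Σ k, tm.Γ k) ∈ A}}.Finite := fun k =>
      finite_lists (hA.preimage (sigma_mk_injective.injOn)) D
    have h2 := (Set.finite_univ (α := Option tm.Λ × tm.σ)).prod (Set.Finite.pi' h1)
    refine (h2.image fun p => (⟨p.1.1, p.1.2, p.2⟩ : TM2.Cfg tm.Γ tm.Λ tm.σ)).subset ?_
    rintro ⟨l, v, S⟩ ⟨h3, h4⟩
    exact ⟨((l, v), S), ⟨trivial, fun k => ⟨h4 k, h3 k⟩⟩, rfl⟩
  have htrunc : ∀ c, Good c → trunc D c ∈ H := fun c hc =>
    ⟨fun k a ha => hc k a (List.mem_of_mem_take ha), fun k => by simp [trunc]⟩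
  have hcinj' : ∀ c c', Good c → Good c' → cc c = cc c' → c = c' := by
    rintro ⟨l, v, S⟩ ⟨l', v', S'⟩ hc hc' h
    obtain ⟨rfl, rfl⟩ := Prod.mk.inj (hq (congrArg Prod.fst h))
    congr 1
    funext k
    have h1 := hget ⟨l, v, S⟩ (eK k) (eK k).2
    rw [h, hget ⟨l, v, S'⟩ (eK k) (eK k).2, hkk] at h1
    exact (map_inj_of_mem _ _ _ h1 fun a ha b hb hab =>
      sigma_mk_injective (hcinj (hc' k a ha) (hc k b hb) hab)).symm
  obtain ⟨E, hE⟩ : ∃ E, ∀ h ∈ H, ∀ k, ((next tm.m h).stk k).length ≤ E := by
    refine ⟨hH.toFinset.sup fun h => Finset.univ.sup fun k => ((next tm.m h).stk k).length,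
      fun h hh k => ?_⟩
    exact (Finset.le_sup (f := fun k => ((next tm.m h).stk k).length) (Finset.mem_univ k)).trans
      (Finset.le_sup (f := fun h => Finset.univ.sup fun k => ((next tm.m h).stk k).length)
        (hH.mem_toFinset.2 hh))
  let tab : List (SimSt × SimSt) := hH.toFinset.toList.map fun h => (cc h, cc (next tm.m h))
  have hstep : ∀ c, Good c → simStep nK D tab (cc c) = cc (next tm.m c) := by
    intro c hc
    have e1 : ((cc c).1, (cc c).2.map fun l => l.take D) = cc (trunc D c) := by
      simp [cc, trunc, List.map_take]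
    have e2 : ((tab.filter fun e => decide (e.1 = cc (trunc D c))).headD ((0, []), (0, []))).2 =
        cc (next tm.m (trunc D c)) := by
      have hm : (cc (trunc D c), cc (next tm.m (trunc D c))) ∈
          tab.filter fun e => decide (e.1 = cc (trunc D c)) :=
        List.mem_filter.2 ⟨List.mem_map.2 ⟨_, Finset.mem_toList.2
          (hH.mem_toFinset.2 (htrunc _ hc)), rfl⟩, by simp⟩
      cases hl : tab.filter fun e => decide (e.1 = cc (trunc D c)) with
      | nil => rw [hl] at hm; cases hm
      | cons e t =>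
        have he : e ∈ tab.filter fun e => decide (e.1 = cc (trunc D c)) := by
          rw [hl]; exact List.mem_cons_self
        obtain ⟨h1, h2⟩ := List.mem_filter.1 he
        obtain ⟨h, hh, rfl⟩ := List.mem_map.1 h1
        have hh' : h ∈ H := by simpa using hh
        have := hcinj' _ _ hh'.1 (htrunc _ hc).1 (by simpa using h2)
        subst this
        rfl
    unfold simStep
    rw [e1, e2]
    conv_rhs => rw [next_trunc tm.m D hD]
    refine Prod.ext rfl ?_
    refine List.map_congr_left fun k hk => ?_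
    have hk' : k < nK := List.mem_range.1 hk
    rw [hget _ _ hk', hget _ _ hk', List.map_append, List.map_drop]
  have hiter : ∀ (y : List Bool) t, (simStep nK D tab)^[t] (cc (initList tm (y.map e0))) =
      cc ((next tm.m)^[t] (initList tm (y.map e0))) := by
    intro y t
    induction t with
    | zero => rfl
    | succ t ih => rw [iterate_succ_apply', iterate_succ_apply', ih, hstep _ (hrun y t)]
  have hlen : ∀ (y : List Bool) t k,
      (((next tm.m)^[t] (initList tm (y.map e0))).stk k).length ≤ y.length + t * E := by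
    intro y t
    induction t with
    | zero =>
      intro k
      by_cases hk : k = tm.k₀
      · subst hk; simp [initList]
      · simp [initList, hk]
    | succ t ih =>
      intro k
      rw [iterate_succ_apply', next_trunc tm.m D hD]
      have h1 := hE _ (htrunc _ (hrun y t)) k
      have h2 := ih k
      simp only [List.length_append, List.length_drop, Nat.succ_mul]
      omega
  let s0 : List Bool → SimSt := fun y => (qcode (some tm.main, tm.initialState),
    (List.range nK).map fun k : ℕ => if k = (eK tm.k₀ : ℕ) then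
      y.map fun b => bif b then code ⟨_, e0 true⟩ else code ⟨_, e0 false⟩ else [])
  have hs0 : ∀ y : List Bool, s0 y = cc (initList tm (y.map e0)) := by
    intro y
    refine Prod.ext rfl (List.map_congr_left fun k hk => ?_)
    have hk' : k < nK := List.mem_range.1 hk
    split_ifs with h
    · subst h
      rw [hkk]
      have : (initList tm (y.map e0)).stk tm.k₀ = y.map e0 := by simp [initList]
      rw [this, List.map_map]
      refine List.map_congr_left fun b _ => ?_
      cases b <;> rfl
    · have : kk k ≠ tm.k₀ := fun h' =>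
        h ((hkk' k hk').symm.trans (congrArg (fun z => (eK z : ℕ)) h'))
      simp [initList, this]
  refine ⟨simStep nK D tab, s0,
    fun s => (s.2.getD (eK tm.k₁) []).map fun a => decide (a = code ⟨_, e1 true⟩),
    2 * nQ + 1 + nK * (2 * ((E + 1) * (2 * nA + 1)) + 1), pt_simStep _ _ _, ?_, ?_, ?_, ?_⟩
  · simp only [s0]; fun_prop
  · fun_prop
  · intro y t
    rw [hs0, hiter]
    have hg := hrun y t
    have hl := hlen y t
    generalize (next tm.m)^[t] (initList tm (y.map e0)) = c at hg hl
    have h1 : sz (cc c).2 ≤ nK * (2 * ((y.length + t * E) * (2 * nA + 1)) + 1) := by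
      refine (sz_list_le _ ((y.length + t * E) * (2 * nA + 1)) ?_).trans (by simp [cc])
      intro l hl'
      obtain ⟨k, -, rfl⟩ := List.mem_map.1 hl'
      refine (sz_list_le _ nA ?_).trans ?_
      · intro a ha
        obtain ⟨b, hb, rfl⟩ := List.mem_map.1 ha
        simpa using hcode _ (hg _ _ hb)
      · rw [List.length_map]
        exact Nat.mul_le_mul_right _ (hl _)
    have h2 : sz (cc c) = 2 * qcode (c.l, c.var) + 1 + sz (cc c).2 := by simp [cc]
    have h3 := hnQ (c.l, c.var)
    have h4 : y.length + t * E ≤ (E + 1) * (y.length + t + 1) := by nlinarith [Nat.zero_le (E * y.length)]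
    have h5 : nK * (2 * ((y.length + t * E) * (2 * nA + 1)) + 1) ≤
        nK * (2 * ((E + 1) * (2 * nA + 1)) + 1) * (y.length + t + 1) := by
      rw [Nat.mul_assoc nK]
      refine Nat.mul_le_mul_left _ ?_
      have := Nat.mul_le_mul_right (2 * nA + 1) h4
      nlinarith
    rw [h2, Nat.add_mul]
    have h6 : 2 * nQ + 1 ≤ (2 * nQ + 1) * (y.length + t + 1) := Nat.le_mul_of_pos_right _ (by omega)
    omega
  · intro y z n hn T hT
    have h1 := iterate_next tm.m n _ _ hn
    obtain ⟨d, rfl⟩ := Nat.exists_eq_add_of_le' hT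
    simp only
    rw [hs0, hiter, iterate_add_apply, h1, iterate_fixed (by rfl), hget _ _ (eK _).2, hkk]
    have : (haltList tm (z.map e1)).stk tm.k₁ = z.map e1 := by simp [haltList]
    rw [this, List.map_map, List.map_map]
    conv_rhs => rw [← List.map_id z]
    refine List.map_congr_left fun b _ => ?_
    cases b
    · simp only [comp, id, decide_eq_false_iff_not]
      intro h
      exact Bool.false_ne_true (he1 (sigma_mk_injective
        (hcinj (Or.inl (Or.inr ⟨false, rfl⟩)) (Or.inl (Or.inr ⟨true, rfl⟩)) h)))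
    · simp

/-- Polynomial time in the sense of the prelude implies `PT`. -/
theorem PT.of_isPolyTime {f : List Bool → List Bool} (h : IsPolyTime f) : PT f := by
  obtain ⟨h⟩ := h
  obtain ⟨g, s0, out, C, hg, hs0, hout, hsz, hrun⟩ := exists_sim h.tm h.inputAlphabet.symm
    h.outputAlphabet.symm h.outputAlphabet.symm.injective
  obtain ⟨d, hd, hd'⟩ := HasDec.bool.list
  have h1 : PT (fun x : List Bool => g^[h.time.eval (enc x).length] (s0 (enc x))) := by
    refine PT.iterate hg (by fun_prop) (hs0.comp (PT.enc' PT.id'))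
      (Polynomial.C C * (Polynomial.X + h.time + 1)) fun x i hi => ?_
    refine (hsz _ _).trans ?_
    simp only [Polynomial.eval_mul, Polynomial.eval_C, Polynomial.eval_add, Polynomial.eval_X,
      Polynomial.eval_one]
    exact Nat.mul_le_mul_left _ (by unfold sz; omega)
  refine (hd.comp (hout.comp h1)).congr fun x => ?_
  have o := h.outputsFun x
  have := hrun (enc x) (enc (f x)) o.steps o.evals_in_steps (h.time.eval (enc x).length)
    o.steps_le_m
  rw [this, hd']

theorem manyOne_trans {A B C : DecisionProblem} (h1 : ManyOneReducible A B)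
    (h2 : ManyOneReducible B C) : ManyOneReducible A C := by
  obtain ⟨f, hf, hf'⟩ := h1
  obtain ⟨g, hg, hg'⟩ := h2
  exact ⟨fun x => g (f x), ((PT.of_isPolyTime hg).comp (PT.of_isPolyTime hf)).isPolyTime_fun,
    fun x => (hf' x).trans (hg' _)⟩

end Pool.Agent.Lib.NP
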