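import Pool.Agent.Lib.NP.Link

/-! Natural numbers in binary for `PT`: addition, multiples, powers of two, integers, rationals. -/

namespace Pool.Agent.Lib.NP

open Function N487b59b3 N68a2faeb Polynomial

/-- Bit strings that encode themselves. -/
structure RawB where
  l : List Bool

instance : Enc RawB := ⟨fun r => r.l, fun ⟨_⟩ ⟨_⟩ h => congrArg RawB.mk h⟩

theorem PTe.rawCons :
    PTe (fun p : Bool × List Bool => delimit [p.1] ++ p.2) (fun p => p.1 :: p.2) := by
  refine ⟨.seq (pop 0) (.case 0 .skip (.seq (pop 0) (.push 0 false)) (.seq (pop 0) (.push 0 true))),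
    1, fun a => ?_⟩
  rcases a with ⟨_ | _, l⟩
  · refine (Eval.seq (t := 0) (Eval.caseT (l := false :: false :: l) (by simp [delimit])
      (Eval.skip _)) (Eval.caseF (l := false :: l) (by simp) (Eval.seq (t := 0)
        (Eval.caseF (l := l) (by simp) (Eval.skip _)) (Eval.push 0 false _)))).cast rfl (by simp)
      (by simp)
  · refine (Eval.seq (t := 0) (Eval.caseT (l := true :: false :: l) (by simp [delimit])
      (Eval.skip _)) (Eval.caseT (l := false :: l) (by simp) (Eval.seq (t := 0)
        (Eval.caseF (l := l) (by simp) (Eval.skip _)) (Eval.push 0 true _)))).cast rfl (by simp)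
      (by simp)

theorem pt_rawCons : PT (fun p : Bool × RawB => RawB.mk (p.1 :: p.2.l)) :=
  PTe.rawCons.reindex fun p => ⟨(p.1, p.2.l), rfl, rfl⟩

/-- From a list of bits to the raw string. -/
theorem pt_implode : PT RawB.mk := by
  have h := PT.foldl_add (α := List Bool) (σ := RawB) (f := fun _ s b => RawB.mk (b :: s.l))
    (l := fun a => a.reverse) (s0 := fun _ => RawB.mk [])
    (pt_rawCons.comp (g := fun p : List Bool × RawB × Bool => (p.2.2, p.2.1)) (by fun_prop))
    (by fun_prop) (PT.const _) 1 (fun a s b => by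
      change (b :: s.l).length ≤ s.l.length + _
      simp)
  refine h.congr fun a => ?_
  have : ∀ (l s : List Bool), l.foldl (fun (s : RawB) b => RawB.mk (b :: s.l)) (RawB.mk s) =
      RawB.mk (l.reverse ++ s) := by
    intro l
    induction l with
    | nil => intro s; rfl
    | cons b l ih => intro s; simp [ih]
  simp [this]

/-- Natural numbers written in binary. -/
@[ext] structure BN where
  v : ℕ
  deriving DecidableEq

/-- The binary expansion. -/
abbrev nb (n : ℕ) : List Bool := Computability.encodeNat n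

theorem nb_inj : Injective nb := fun a b h => by
  have := congrArg Computability.decodeNat h
  simpa [nb, Computability.decode_encodeNat] using this

instance : Enc BN := ⟨fun n => nb n.v, fun _ _ h => BN.ext (nb_inj h)⟩

theorem enc_bn (n : BN) : enc n = nb n.v := rfl

theorem sz_bn (n : BN) : sz n = (nb n.v).length := rfl

namespace PT

variable {α : Type} [Enc α]

theorem ofBits {f : α → BN} (h : PT (fun a => nb (f a).v)) : PT f :=
  PTe.reindex (pt_implode.comp h) fun a => ⟨a, rfl, rfl⟩

theorem bits {f : α → BN} (h : PT f) : PT (fun a => nb (f a).v) := h.enc'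

end PT

def toBN (n : ℕ) : BN := ⟨n⟩
def bodd (n : BN) : Bool := decide (n.v % 2 = 1)
def bhalf (n : BN) : BN := ⟨n.v / 2⟩
def badd (a b : BN) : BN := ⟨a.v + b.v⟩
def bsmul (k : ℕ) (a : BN) : BN := ⟨k * a.v⟩
def bpow2 (k : ℕ) : BN := ⟨2 ^ k⟩

@[simp] theorem toBN_v (n : ℕ) : (toBN n).v = n := rfl
@[simp] theorem badd_v (a b : BN) : (badd a b).v = a.v + b.v := rfl
@[simp] theorem bsmul_v (k : ℕ) (a : BN) : (bsmul k a).v = k * a.v := rfl
@[simp] theorem bpow2_v (k : ℕ) : (bpow2 k).v = 2 ^ k := rfl
@[simp] theorem toBN_inj {a b : ℕ} : toBN a = toBN b ↔ a = b := by simp [toBN]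

theorem nb_zero : nb 0 = [] := rfl

theorem nb_step (n : ℕ) (hn : n ≠ 0) : nb n = decide (n % 2 = 1) :: nb (n / 2) :=
  PT.encodeNat_step n hn

theorem headD_nb (n : ℕ) : (nb n).headD false = decide (n % 2 = 1) := by
  by_cases h : n = 0
  · subst h; rfl
  · rw [nb_step n h]; rfl

theorem tail_nb (n : ℕ) : (nb n).tail = nb (n / 2) := by
  by_cases h : n = 0
  · subst h; rfl
  · rw [nb_step n h]; rfl

theorem lt_two_pow_length (n : ℕ) : n < 2 ^ (nb n).length := by
  induction n using Nat.strong_induction_on with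
  | _ n ih =>
    by_cases h : n = 0
    · subst h; simp
    · have := ih (n / 2) (by omega)
      rw [nb_step n h, List.length_cons, pow_succ]; omega

theorem length_nb_le (k : ℕ) : ∀ n, n < 2 ^ k → (nb n).length ≤ k := by
  induction k with
  | zero =>
    intro n h
    obtain rfl : n = 0 := by simpa using h
    simp [nb_zero]
  | succ k ih =>
    intro n h
    by_cases h0 : n = 0
    · subst h0; simp [nb_zero]
    · rw [nb_step n h0, List.length_cons]
      have := ih (n / 2) (by rw [pow_succ] at h; omega)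
      omega

theorem nb_two_pow (k : ℕ) : nb (2 ^ k) = List.replicate k false ++ [true] := by
  induction k with
  | zero => rfl
  | succ k ih =>
    rw [nb_step _ (by positivity), pow_succ, Nat.mul_div_cancel _ (by norm_num), ih]
    simp [List.replicate_succ]

/-- One step of binary addition. -/
def addStep (s : Bool × BN × BN × List Bool) : Bool × BN × BN × List Bool :=
  bif (decide (s.2.1 = toBN 0) && decide (s.2.2.1 = toBN 0) && !s.1) then s else
    ((s.1 && bodd s.2.1) || (s.1 && bodd s.2.2.1) || (bodd s.2.1 && bodd s.2.2.1),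
      bhalf s.2.1, bhalf s.2.2.1, s.2.2.2 ++ [xor s.1 (xor (bodd s.2.1) (bodd s.2.2.1))])

def addVal (s : Bool × BN × BN × List Bool) : ℕ := s.2.1.v + s.2.2.1.v + s.1.toNat

def addMu (s : Bool × BN × BN × List Bool) : ℕ :=
  2 * ((nb s.2.1.v).length + (nb s.2.2.1.v).length) + s.1.toNat

theorem addStep_spec (s : Bool × BN × BN × List Bool) :
    (addStep s).2.2.2 ++ nb (addVal (addStep s)) = s.2.2.2 ++ nb (addVal s) ∧
    addMu (addStep s) ≤ addMu s - 1 ∧ (addStep s).2.2.2.length ≤ s.2.2.2.length + 1 := by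
  obtain ⟨c, ⟨a⟩, ⟨b⟩, o⟩ := s
  by_cases h : a = 0 ∧ b = 0 ∧ c = false
  · obtain ⟨rfl, rfl, rfl⟩ := h
    refine ⟨rfl, ?_, ?_⟩
    · change addMu (false, ⟨0⟩, ⟨0⟩, o) ≤ _
      simp [addMu, nb_zero]
    · change o.length ≤ _
      simp
  · have hc : (decide ((⟨a⟩ : BN) = toBN 0) && decide ((⟨b⟩ : BN) = toBN 0) && !c) = false := by
      by_contra h'
      apply h
      simp only [Bool.not_eq_false, Bool.and_eq_true, decide_eq_true_eq, Bool.not_eq_true', toBN,
        BN.mk.injEq] at h'
      exact ⟨h'.1.1, h'.1.2, h'.2⟩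
    obtain ⟨c', hc'⟩ : ∃ c', c' = ((c && decide (a % 2 = 1)) || (c && decide (b % 2 = 1)) ||
        (decide (a % 2 = 1) && decide (b % 2 = 1))) := ⟨_, rfl⟩
    have e : addStep (c, ⟨a⟩, ⟨b⟩, o) = (c', ⟨a / 2⟩, ⟨b / 2⟩,
        o ++ [xor c (xor (decide (a % 2 = 1)) (decide (b % 2 = 1)))]) := by
      unfold addStep
      rw [hc, hc']; rfl
    rw [e]
    have la : (nb (a / 2)).length = (nb a).length - 1 := by
      rw [← tail_nb]; simp
    have lb : (nb (b / 2)).length = (nb b).length - 1 := by
      rw [← tail_nb]; simp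
    have pa : a ≠ 0 → 1 ≤ (nb a).length := fun h => by rw [nb_step a h]; simp
    have pb : b ≠ 0 → 1 ≤ (nb b).length := fun h => by rw [nb_step b h]; simp
    refine ⟨?_, ?_, by simp⟩
    · have hne : a + b + c.toNat ≠ 0 := by
        intro h0; apply h; cases c <;> simp at h0 ⊢ <;> omega
      change _ ++ nb (a / 2 + b / 2 + c'.toNat) = o ++ nb (a + b + c.toNat)
      rw [nb_step _ hne, List.append_assoc, hc']
      congr 1
      rw [List.singleton_append]
      congr 1
      · rcases Nat.mod_two_eq_zero_or_one a with ha | ha <;>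
        rcases Nat.mod_two_eq_zero_or_one b with hb | hb <;> cases c <;>
        simp [ha, hb] <;> omega
      · congr 1
        rcases Nat.mod_two_eq_zero_or_one a with ha | ha <;>
        rcases Nat.mod_two_eq_zero_or_one b with hb | hb <;> cases c <;>
        simp [ha, hb] <;> omega
    · change 2 * ((nb (a / 2)).length + (nb (b / 2)).length) + c'.toNat ≤
        2 * ((nb a).length + (nb b).length) + c.toNat - 1
      rw [la, lb]
      have hb1 : c'.toNat ≤ 1 := by cases c' <;> simp
      by_cases ha : a = 0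
      · by_cases hb : b = 0
        · subst ha hb
          cases c
          · simp at h
          · simp [nb_zero, hc']
        · have := pb hb
          omega
      · have := pa ha
        omega

theorem addStep_iter (s : Bool × BN × BN × List Bool) (i : ℕ) :
    (addStep^[i] s).2.2.2 ++ nb (addVal (addStep^[i] s)) = s.2.2.2 ++ nb (addVal s) ∧
    addMu (addStep^[i] s) ≤ addMu s - i ∧ (addStep^[i] s).2.2.2.length ≤ s.2.2.2.length + i := by
  induction i with
  | zero => simp
  | succ i ih =>
    rw [iterate_succ_apply']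
    obtain ⟨h1, h2, h3⟩ := addStep_spec (addStep^[i] s)
    exact ⟨h1.trans ih.1, by omega, by omega⟩

theorem addVal_of_mu (s : Bool × BN × BN × List Bool) (h : addMu s = 0) : addVal s = 0 := by
  unfold addMu at h
  unfold addVal
  have h1 := lt_two_pow_length s.2.1.v
  have h2 := lt_two_pow_length s.2.2.1.v
  rw [show (nb s.2.1.v).length = 0 by omega] at h1
  rw [show (nb s.2.2.1.v).length = 0 by omega] at h2
  omega

namespace PT

variable {α : Type} [Enc α]

@[fun_prop] theorem toBN' {f : α → ℕ} (h : PT f) : PT (fun a => toBN (f a)) :=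
  ofBits h.encodeNat

@[fun_prop] theorem bodd' {f : α → BN} (h : PT f) : PT (fun a => bodd (f a)) :=
  (h.bits.headD (const false)).congr fun _ => headD_nb _

@[fun_prop] theorem bhalf' {f : α → BN} (h : PT f) : PT (fun a => bhalf (f a)) :=
  ofBits (h.bits.tail.congr fun _ => tail_nb _)

@[fun_prop] theorem bpow2' {f : α → ℕ} (h : PT f) : PT (fun a => bpow2 (f a)) :=
  ofBits ((append (replicate h (const false)) (const [true])).congr fun _ =>
    (nb_two_pow _).symm)

theorem badd0 : PT (fun p : BN × BN => badd p.1 p.2) := by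
  have hg : PT addStep := by unfold addStep; fun_prop
  have hn : PT (fun p : BN × BN => addMu (false, p.1, p.2, [])) :=
    (((const 2).mul ((fst id').bits.length.add (snd id').bits.length)).add (const 0)).congr
      fun _ => rfl
  refine ofBits ((iterate (s0 := fun p : BN × BN => (false, p.1, p.2, [])) hg hn (by fun_prop)
    (20 * X + 10) fun p i hi => ?_).snd.snd.snd.congr fun p => ?_)
  · obtain ⟨-, h2, h3⟩ := addStep_iter (false, p.1, p.2, []) i
    obtain ⟨a, b⟩ := p
    have e : addMu (false, a, b, []) = 2 * (sz a + sz b) := rfl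
    generalize addStep^[i] (false, a, b, []) = s at h2 h3
    obtain ⟨c, x, y, o⟩ := s
    have e2 : addMu (c, x, y, o) = 2 * (sz x + sz y) + c.toNat := rfl
    simp only [e, e2] at h2 hi
    simp [sz_bits] at h3 ⊢
    omega
  · obtain ⟨h1, h2, -⟩ := addStep_iter (false, p.1, p.2, []) (addMu (false, p.1, p.2, []))
    rw [addVal_of_mu _ (by omega)] at h1
    exact (List.append_nil _).symm.trans h1

@[fun_prop] theorem badd' {f g : α → BN} (hf : PT f) (hg : PT g) :
    PT (fun a => badd (f a) (g a)) := badd0.comp (hf.mk hg)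

theorem bsmul0 : PT (fun p : ℕ × BN => bsmul p.1 p.2) := by
  have key : ∀ (b : BN) (i : ℕ), (fun s : BN × BN => (s.1, badd s.2 s.1))^[i] (b, toBN 0) =
      (b, bsmul i b) := by
    intro b i
    induction i with
    | zero => exact Prod.ext rfl (BN.ext (by simp))
    | succ i ih => rw [iterate_succ_apply', ih]; exact Prod.ext rfl (BN.ext (by simp [Nat.succ_mul]))
  refine (iterate (g := fun s : BN × BN => (s.1, badd s.2 s.1))
    (s0 := fun p : ℕ × BN => (p.2, toBN 0)) (by fun_prop) (fst id') (by fun_prop)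
    (4 * X + 1) fun p i hi => ?_).snd.congr fun p => by rw [key]
  rw [key]
  obtain ⟨k, b⟩ := p
  have h : sz (bsmul i b) ≤ i + sz b := by
    refine length_nb_le _ _ ?_
    rw [pow_add]
    exact Nat.mul_lt_mul'' Nat.lt_two_pow_self (lt_two_pow_length b.v)
  simp at hi ⊢
  omega

@[fun_prop] theorem bsmul' {f : α → ℕ} {g : α → BN} (hf : PT f) (hg : PT g) :
    PT (fun a => bsmul (f a) (g a)) := bsmul0.comp (hf.mk hg)

end PT

/-- Positive part of an integer, in binary. -/
def ipos (z : ℤ) : BN := ⟨z.toNat⟩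
/-- Negative part of an integer, in binary. -/
def ineg (z : ℤ) : BN := ⟨(-z).toNat⟩

instance : Enc ℤ := ⟨fun z => enc (ipos z, ineg z), fun a b h => by
  have h1 := Enc.inj h
  have h2 : a.toNat = b.toNat := congrArg (fun p => p.1.v) h1
  have h3 : (-a).toNat = (-b).toNat := congrArg (fun p => p.2.v) h1
  omega⟩

instance : Enc ℚ := ⟨fun q => enc (q.num, toBN q.den), fun _ _ h => by
  have h1 := Enc.inj h
  exact Rat.ext (congrArg Prod.fst h1) (congrArg (fun p => p.2.v) h1)⟩

theorem bitEncode_int (z : ℤ) : bitEncode z = enc z := rfl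

theorem bitEncode_rat (q : ℚ) : bitEncode q = enc q := rfl

/-- A binary natural number as a rational. -/
def bq (n : BN) : ℚ := (n.v : ℚ)

namespace PT

variable {α : Type} [Enc α]

@[fun_prop] theorem ipos' {f : α → ℤ} (h : PT f) : PT (fun a => ipos (f a)) :=
  fst (f := fun a => (ipos (f a), ineg (f a))) h

@[fun_prop] theorem ineg' {f : α → ℤ} (h : PT f) : PT (fun a => ineg (f a)) :=
  snd (f := fun a => (ipos (f a), ineg (f a))) h

@[fun_prop] theorem bq' {f : α → BN} (h : PT f) : PT (fun a => bq (f a)) := by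
  have h1 : PT (fun a => ((f a, toBN 0), toBN 1)) := by fun_prop
  refine PTe.reindex h1 fun a => ⟨a, rfl, ?_⟩
  change _ = enc ((ipos (bq (f a)).num, ineg (bq (f a)).num), toBN (bq (f a)).den)
  have e1 : ipos (bq (f a)).num = f a := by simp [ipos, bq]
  have e2 : ineg (bq (f a)).num = toBN 0 := by simp [ineg, bq, toBN]
  have e3 : (bq (f a)).den = 1 := by simp [bq]
  rw [e1, e2, e3]

end PT

end Pool.Agent.Lib.NP
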