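import Pool.Agent.Lib.NP.Bin
import Pool.Agent.Lib.NP.Sim

/-! More binary arithmetic for `PT`: comparison, binary search, subtraction, product, quotient,
and the passage from the polynomial time of the prelude to `PT` for typed functions. -/

namespace Pool.Agent.Lib.NP

open Function N487b59b3 N68a2faeb Polynomial

/-- A function computable in polynomial time in the sense of the prelude is `PT` for any types
with the same codes. -/
theorem PT.of_typed {α β α' β' : Type} [N487b59b3 α] [N487b59b3 β] [Enc α'] [Enc β'] {f : α → β}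
    (h : IsPolyTime f) {g : α' → β'}
    (H : ∀ a', ∃ a, enc a' = bitEncode a ∧ enc (g a') = bitEncode (f a)) : PT g := by
  obtain ⟨h⟩ := h
  obtain ⟨g', s0, out, C, hg, hs0, hout, hsz, hrun⟩ := exists_sim h.tm h.inputAlphabet.symm
    h.outputAlphabet.symm h.outputAlphabet.symm.injective
  have h1 : PT (fun x : List Bool => g'^[h.time.eval x.length] (s0 x)) := by
    refine PT.iterate hg (by fun_prop) hs0
      (Polynomial.C C * (Polynomial.X + h.time + 1)) fun x i hi => ?_
    refine (hsz _ _).trans ?_
    simp only [Polynomial.eval_mul, Polynomial.eval_C, Polynomial.eval_add, Polynomial.eval_X,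
      Polynomial.eval_one]
    have h2 := length_le_sz x
    have h3 := eval_mono h.time h2
    exact Nat.mul_le_mul_left _ (by omega)
  refine PTe.reindex (pt_implode.comp ((hout.comp h1).comp (PT.enc' (PT.id' (α := α')))))
    fun a' => ⟨a', rfl, ?_⟩
  obtain ⟨a, e1, e2⟩ := H a'
  have o := h.outputsFun a
  have := hrun (bitEncode a) (bitEncode (f a)) o.steps o.evals_in_steps
    (h.time.eval (bitEncode a).length) o.steps_le_m
  change out (g'^[h.time.eval (enc a').length] (s0 (enc a'))) = enc (g a')
  rw [e1, e2, this]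

@[fun_prop] theorem PT.idxOf' {α β : Type} [Enc α] [Enc β] [BEq β] [LawfulBEq β] {f : α → β}
    {l : α → List β} (hf : PT f) (hl : PT l) : PT fun a => (l a).idxOf (f a) := by
  have key : ∀ (b : β) (l : List β),
      (List.range l.length).countP (fun i => !(l.take (i + 1)).contains b) = l.idxOf b := by
    intro b l
    induction l with
    | nil => simp
    | cons c l ih =>
      rw [List.length_cons, List.range_succ_eq_map, List.countP_cons, List.countP_map]
      by_cases h : c = b
      · subst h; simp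
      · rw [List.idxOf_cons_ne _ h, ← ih]
        simp [Function.comp_def, Ne.symm h]
  refine PT.congr ?_ fun a => key (f a) (l a)
  fun_prop

def ble (a b : BN) : Bool := decide (a.v ≤ b.v)
def bshr (k : ℕ) (a : BN) : BN := ⟨a.v / 2 ^ k⟩
def bmul (a b : BN) : BN := ⟨a.v * b.v⟩
def bsub (a b : BN) : BN := ⟨a.v - b.v⟩
def bdiv (a b : BN) : BN := ⟨a.v / b.v⟩
def zsub (a b : BN) : ℤ := (a.v : ℤ) - b.v
def blen (a : BN) : ℕ := (nb a.v).length
/-- Binary search from the top bit. -/
def bsearch (P : BN → Bool) (K : ℕ) : BN :=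
  (List.range K).reverse.foldl (fun s j => bif P (badd s (bpow2 j)) then badd s (bpow2 j) else s)
    (toBN 0)

@[simp] theorem ble_iff (a b : BN) : ble a b = true ↔ a.v ≤ b.v := by simp [ble]
@[simp] theorem bshr_v (k : ℕ) (a : BN) : (bshr k a).v = a.v / 2 ^ k := rfl
@[simp] theorem bmul_v (a b : BN) : (bmul a b).v = a.v * b.v := rfl
@[simp] theorem bsub_v (a b : BN) : (bsub a b).v = a.v - b.v := rfl
@[simp] theorem bdiv_v (a b : BN) : (bdiv a b).v = a.v / b.v := rfl
@[simp] theorem bodd_iff (a : BN) : bodd a = true ↔ a.v % 2 = 1 := by simp [bodd]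

theorem lt_blen (a : BN) : a.v < 2 ^ blen a := lt_two_pow_length _

theorem sz_le_of_lt {a : BN} {k : ℕ} (h : a.v < 2 ^ k) : sz a ≤ k := length_nb_le k _ h

theorem bsearch_aux (P : BN → Bool) (K : ℕ) : ∀ s : BN,
    let r := (List.range K).reverse.foldl
      (fun s j => bif P (badd s (bpow2 j)) then badd s (bpow2 j) else s) s
    r.v < s.v + 2 ^ K ∧ (r = s ∨ P r = true) ∧ (r.v + 1 = s.v + 2 ^ K ∨ P ⟨r.v + 1⟩ = false) := by
  induction K with
  | zero => intro s; simp
  | succ K ih =>
    intro s
    rw [List.range_succ, List.reverse_append, List.reverse_singleton, List.singleton_append,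
      List.foldl_cons]
    cases hP : P (badd s (bpow2 K))
    · obtain ⟨h1, h2, h3⟩ := ih s
      refine ⟨by rw [pow_succ]; exact h1.trans_le (by omega), h2, Or.inr ?_⟩
      rcases h3 with h3 | h3
      · exact (congrArg P (BN.ext h3)).trans hP
      · exact h3
    · obtain ⟨h1, h2, h3⟩ := ih (badd s (bpow2 K))
      simp only [badd_v, bpow2_v] at h1 h3
      refine ⟨by rw [pow_succ]; exact h1.trans_le (by omega), Or.inr ?_, h3.imp_left fun h => ?_⟩
      · rcases h2 with h2 | h2
        · exact h2.symm ▸ hP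
        · exact h2
      · rw [pow_succ]; exact h.trans (by omega)

theorem bsearch_spec {P : BN → Bool} {K : ℕ} (h0 : P ⟨0⟩ = true) (h1 : P ⟨2 ^ K⟩ = false) :
    (bsearch P K).v < 2 ^ K ∧ P (bsearch P K) = true ∧ P ⟨(bsearch P K).v + 1⟩ = false := by
  obtain ⟨a, b, c⟩ := bsearch_aux P K (toBN 0)
  simp only [toBN_v, zero_add] at a c
  refine ⟨a, ?_, ?_⟩
  · rcases b with b | b
    · exact (congrArg P b).trans h0
    · exact b
  · rcases c with c | c
    · rw [← h1]; exact congrArg P (BN.ext c)
    · exact c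

def leStep (s : BN × BN × Bool) : BN × BN × Bool :=
  (bhalf s.1, bhalf s.2.1, bif xor (bodd s.1) (bodd s.2.1) then bodd s.2.1 else s.2.2)

theorem leStep_iter (a b : BN) (i : ℕ) : (leStep^[i] (a, b, true)).1.v = a.v / 2 ^ i ∧
    (leStep^[i] (a, b, true)).2.1.v = b.v / 2 ^ i ∧
    ((leStep^[i] (a, b, true)).2.2 = true ↔ a.v % 2 ^ i ≤ b.v % 2 ^ i) := by
  induction i with
  | zero => simp [Nat.mod_one]
  | succ i ih =>
    rw [iterate_succ_apply']
    generalize leStep^[i] (a, b, true) = s at ih
    obtain ⟨x, y, r⟩ := s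
    obtain ⟨h1, h2, h3⟩ := ih
    simp only at h1 h2 h3
    refine ⟨by simp [leStep, bhalf, h1, pow_succ, Nat.div_div_eq_div_mul],
      by simp [leStep, bhalf, h2, pow_succ, Nat.div_div_eq_div_mul], ?_⟩
    have ha := Nat.mod_lt a.v (show 0 < 2 ^ i by positivity)
    have hb := Nat.mod_lt b.v (show 0 < 2 ^ i by positivity)
    rw [Nat.mod_pow_succ, Nat.mod_pow_succ, ← h1, ← h2]
    rcases Nat.mod_two_eq_zero_or_one x.v with hx | hx <;>
    rcases Nat.mod_two_eq_zero_or_one y.v with hy | hy <;>
    simp [leStep, bodd, hx, hy, h3] <;> omega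

theorem drop_nb (k n : ℕ) : (nb n).drop k = nb (n / 2 ^ k) := by
  induction k with
  | zero => simp
  | succ k ih => rw [← List.tail_drop, ih, tail_nb, pow_succ, Nat.div_div_eq_div_mul]

theorem foldr_nb (b n : ℕ) :
    (nb n).foldr (fun x (s : BN) => badd (badd s s) (bif x then ⟨b⟩ else toBN 0)) (toBN 0) =
      ⟨n * b⟩ := by
  induction n using Nat.strong_induction_on with
  | _ n ih =>
    by_cases h : n = 0
    · subst h; exact BN.ext (by simp [nb_zero])
    · rw [nb_step n h, List.foldr_cons, ih _ (by omega)]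
      have := Nat.div_add_mod n 2
      rcases Nat.mod_two_eq_zero_or_one n with hx | hx <;> refine BN.ext ?_ <;> simp [hx] <;>
        nlinarith

theorem sz_badd (a b : BN) : sz (badd a b) ≤ max (sz a) (sz b) + 1 := by
  refine sz_le_of_lt ?_
  have h1 : a.v < 2 ^ max (sz a) (sz b) :=
    (lt_blen a).trans_le (Nat.pow_le_pow_right (by norm_num) (le_max_left _ _))
  have h2 : b.v < 2 ^ max (sz a) (sz b) :=
    (lt_blen b).trans_le (Nat.pow_le_pow_right (by norm_num) (le_max_right _ _))
  rw [pow_succ, badd_v]; omega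

theorem sz_bmul (a b : BN) : sz (bmul a b) ≤ sz a + sz b := by
  refine sz_le_of_lt ?_
  rw [pow_add]
  exact Nat.mul_lt_mul'' (lt_blen a) (lt_blen b)

theorem sz_bpow2 (k : ℕ) : sz (bpow2 k) ≤ k + 1 :=
  sz_le_of_lt (Nat.pow_lt_pow_right (by norm_num) (by omega))

namespace PT

variable {α : Type} [Enc α]

@[fun_prop] theorem blen' {f : α → BN} (h : PT f) : PT (fun a => blen (f a)) := h.bits.length

theorem ble0 : PT (fun p : BN × BN => ble p.1 p.2) := by
  have hg : PT leStep := by unfold leStep; fun_prop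
  refine (iterate (s0 := fun p : BN × BN => (p.1, p.2, true)) (n := fun p => blen p.1 + blen p.2)
    hg (by fun_prop) (by fun_prop) (4 * X + 3) fun p i _ => ?_).snd.snd.congr fun p => ?_
  · obtain ⟨a, b⟩ := p
    obtain ⟨h1, h2, -⟩ := leStep_iter a b i
    generalize leStep^[i] (a, b, true) = s at h1 h2
    obtain ⟨x, y, r⟩ := s
    have k1 : sz x ≤ sz a := sz_le_of_lt ((h1 ▸ Nat.div_le_self _ _).trans_lt (lt_blen a))
    have k2 : sz y ≤ sz b := sz_le_of_lt ((h2 ▸ Nat.div_le_self _ _).trans_lt (lt_blen b))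
    simp; omega
  · have h := (leStep_iter p.1 p.2 (blen p.1 + blen p.2)).2.2
    rw [Nat.mod_eq_of_lt ((lt_blen _).trans_le (Nat.pow_le_pow_right (by norm_num) (by omega))),
      Nat.mod_eq_of_lt ((lt_blen _).trans_le (Nat.pow_le_pow_right (by norm_num) (by omega)))] at h
    rw [Bool.eq_iff_iff, h, ble_iff]

@[fun_prop] theorem ble' {f g : α → BN} (hf : PT f) (hg : PT g) :
    PT (fun a => ble (f a) (g a)) := ble0.comp (hf.mk hg)

@[fun_prop] theorem bshr' {k : α → ℕ} {f : α → BN} (hk : PT k) (hf : PT f) :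
    PT (fun a => bshr (k a) (f a)) := ofBits ((drop hk hf.bits).congr fun _ => drop_nb _ _)

theorem bmul0 : PT (fun p : BN × BN => bmul p.1 p.2) := by
  refine (foldl_add (α := BN × BN) (σ := BN)
    (f := fun p s x => badd (badd s s) (bif x then p.2 else toBN 0))
    (l := fun p => (nb p.1.v).reverse) (s0 := fun _ => toBN 0) (by fun_prop)
    (fst id').bits.reverse (const _) (X + 2) fun p s x => ?_).congr fun p => ?_
  · have h1 := sz_badd (badd s s) (bif x then p.2 else toBN 0)
    have h2 := sz_badd s s
    have h3 := sz_snd_le p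
    have h4 : sz (bif x then p.2 else toBN 0) ≤ sz p.2 := by
      cases x
      · exact Nat.zero_le _
      · exact le_rfl
    simp; omega
  · rw [List.foldl_reverse]
    exact foldr_nb p.2.v p.1.v

@[fun_prop] theorem bmul' {f g : α → BN} (hf : PT f) (hg : PT g) :
    PT (fun a => bmul (f a) (g a)) := bmul0.comp (hf.mk hg)

@[fun_prop] theorem bsearch' {P : α → BN → Bool} {K : α → ℕ}
    (hP : PT fun p : α × BN => P p.1 p.2) (hK : PT K) : PT (fun a => bsearch (P a) (K a)) := by
  refine foldl_add (f := fun a s j => bif P a (badd s (bpow2 j)) then badd s (bpow2 j) else s)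
    (cond (hP.comp (g := fun p : α × BN × ℕ => (p.1, badd p.2.1 (bpow2 p.2.2))) (by fun_prop))
      (by fun_prop) (by fun_prop)) (by fun_prop) (const _) (X + 2) fun a s j => ?_
  have h1 := sz_badd s (bpow2 j)
  have h2 := sz_bpow2 j
  cases P a (badd s (bpow2 j))
  · simp
  · simp; omega

@[fun_prop] theorem bsub' {f g : α → BN} (hf : PT f) (hg : PT g) :
    PT (fun a => bsub (f a) (g a)) := by
  refine PT.congr (f := fun a => bif ble (g a) (f a) then
    bsearch (fun s => ble (badd (g a) s) (f a)) (blen (f a)) else toBN 0) (by fun_prop) fun a => ?_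
  cases h : ble (g a) (f a)
  · have : ¬ (g a).v ≤ (f a).v := by rw [← ble_iff, h]; simp
    exact BN.ext (by simp; omega)
  · have := lt_blen (f a)
    obtain ⟨-, h1, h2⟩ := bsearch_spec (P := fun s => ble (badd (g a) s) (f a)) (K := blen (f a))
      (by simpa using h) (by simp [ble]; omega)
    simp [ble] at h1 h2
    exact BN.ext (by simp [ble]; omega)

@[fun_prop] theorem bdiv' {f g : α → BN} (hf : PT f) (hg : PT g) :
    PT (fun a => bdiv (f a) (g a)) := by
  refine PT.congr (f := fun a => bif ble (g a) (toBN 0) then toBN 0 else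
    bsearch (fun s => ble (bmul s (g a)) (f a)) (blen (f a))) (by fun_prop) fun a => ?_
  cases h : ble (g a) (toBN 0)
  · have h0 : 0 < (g a).v := by simpa [ble, Nat.pos_iff_ne_zero] using h
    have := lt_blen (f a)
    obtain ⟨-, h1, h2⟩ := bsearch_spec (P := fun s => ble (bmul s (g a)) (f a)) (K := blen (f a))
      (by simp) (by simp [ble]; nlinarith)
    simp only [ble, bmul_v, decide_eq_true_eq, decide_eq_false_iff_not, not_le] at h1 h2
    exact BN.ext (Nat.div_eq_of_lt_le h1 h2).symm
  · have h0 : (g a).v = 0 := by simpa using h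
    exact BN.ext (by simp [h0])

@[fun_prop] theorem zsub' {f g : α → BN} (hf : PT f) (hg : PT g) :
    PT (fun a => zsub (f a) (g a)) := by
  have h1 : PT (fun a => (bsub (f a) (g a), bsub (g a) (f a))) := by fun_prop
  refine PTe.reindex h1 fun a => ⟨a, rfl, ?_⟩
  change _ = enc (ipos (zsub (f a) (g a)), ineg (zsub (f a) (g a)))
  refine congrArg enc (Prod.ext (BN.ext ?_) (BN.ext ?_)) <;> simp [ipos, ineg, zsub]

/-- The numerator of a rational number. -/
theorem qnum {f : α → ℚ} (h : PT f) : PT (fun a => (f a).num) :=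
  fst (f := fun a => ((f a).num, toBN (f a).den)) h

/-- The denominator of a rational number, in binary. -/
theorem qden {f : α → ℚ} (h : PT f) : PT (fun a => toBN (f a).den) :=
  snd (f := fun a => ((f a).num, toBN (f a).den)) h

end PT

def qn (q : ℚ) : BN := ipos q.num
def qd (q : ℚ) : BN := toBN q.den
def bsum (l : List BN) : BN := l.foldl badd (toBN 0)
def bprod (l : List BN) : BN := l.foldl bmul (toBN 1)

theorem bsum_v (l : List BN) : (bsum l).v = (l.map BN.v).sum := by
  have : ∀ s : BN, (l.foldl badd s).v = s.v + (l.map BN.v).sum := by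
    induction l with
    | nil => simp
    | cons a l ih => intro s; simp [ih, add_assoc]
  simp [bsum, this]

theorem bprod_v (l : List BN) : (bprod l).v = (l.map BN.v).prod := by
  have : ∀ s : BN, (l.foldl bmul s).v = s.v * (l.map BN.v).prod := by
    induction l with
    | nil => simp
    | cons a l ih => intro s; simp [ih, mul_assoc]
  simp [bprod, this]

namespace PT

variable {α : Type} [Enc α]

@[fun_prop] theorem qn' {f : α → ℚ} (h : PT f) : PT (fun a => qn (f a)) := h.qnum.ipos'
@[fun_prop] theorem qd' {f : α → ℚ} (h : PT f) : PT (fun a => qd (f a)) := h.qden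

@[fun_prop] theorem bsum' {l : α → List BN} (h : PT l) : PT (fun a => bsum (l a)) :=
  foldl_add (f := fun _ s b => badd s b) (by fun_prop) h (const _) (X + 1) fun a s b => by
    have := sz_badd s b
    simp; omega

@[fun_prop] theorem bprod' {l : α → List BN} (h : PT l) : PT (fun a => bprod (l a)) :=
  foldl_add (f := fun _ s b => bmul s b) (by fun_prop) h (const _) X fun a s b => by
    have := sz_bmul s b
    simp; omega

end PT

end Pool.Agent.Lib.NP
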