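import Pool.Agent.Lib.NP.PTLib
import Pool.Prelude.Def_F_458e953d

/-! From `PT` to the polynomial-time notion of the prelude (Mathlib's `TM2ComputableInPolyTime`). -/

namespace Pool.Agent.Lib.NP

open N487b59b3 N68a2faeb N793a5b8e

theorem PT.isPolyTime {α β : Type} [Enc α] [Enc β] [N487b59b3 α] [N487b59b3 β] {f : α → β}
    (hf : PT f) (hα : ∀ a : α, bitEncode a = enc a) (hβ : ∀ b : β, bitEncode b = enc b) :
    IsPolyTime f := by
  have h1 : (N487b59b3.toEncoding (α := α)).encode = enc := funext hα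
  have h2 : (N487b59b3.toEncoding (α := β)).encode = enc := funext hβ
  unfold IsPolyTime IsPolyTimeWithEncoding
  rw [h1, h2]
  exact PTe.toTM2 hf

theorem PT.isPolyTime_fun {f : List Bool → List Bool} (hf : PT f) : IsPolyTime f :=
  hf.isPolyTime (fun _ => rfl) (fun _ => rfl)

theorem PT.isPolyTime_pred {f : List Bool → Bool} (hf : PT f) : IsPolyTime f :=
  hf.isPolyTime (fun _ => rfl) (fun _ => rfl)

theorem PT.isPolyTime_rel {f : List Bool × List Bool → Bool} (hf : PT f) : IsPolyTime f :=
  hf.isPolyTime (fun _ => rfl) (fun _ => rfl)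

end Pool.Agent.Lib.NP
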