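import Pool.Agent.Lib.NP.Tableau
import Pool.Agent.Lib.NP.Link

/-! The Cook-Levin theorem for Mathlib's `FinTM2`. -/

namespace Pool.Agent.Lib.NP

open Function Turing N487b59b3 N68a2faeb N793a5b8e

section stmt

variable {K : Type} [DecidableEq K] {Γ : K → Type} {Λ σ : Type}

def depth : TM2.Stmt Γ Λ σ → ℕ
  | .push _ _ q => depth q
  | .peek _ _ q => depth q + 1
  | .pop _ _ q => depth q + 1
  | .load _ q => depth q
  | .branch _ q₁ q₂ => max (depth q₁) (depth q₂)
  | .goto _ => 0
  | .halt => 0

def syms : TM2.Stmt Γ Λ σ → Set (Σ k, Γ k)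
  | .push k f q => Set.range (fun v => ⟨k, f v⟩) ∪ syms q
  | .peek _ _ q => syms q
  | .pop _ _ q => syms q
  | .load _ q => syms q
  | .branch _ q₁ q₂ => syms q₁ ∪ syms q₂
  | .goto _ => ∅
  | .halt => ∅

omit [DecidableEq K] in
theorem syms_finite [Finite σ] (q : TM2.Stmt Γ Λ σ) : (syms q).Finite := by
  induction q with
  | push k f q ih => exact (Set.finite_range _).union ih
  | peek _ _ _ ih => exact ih
  | pop _ _ _ ih => exact ih
  | load _ _ ih => exact ih
  | branch _ _ _ ih1 ih2 => exact ih1.union ih2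
  | goto _ => exact Set.finite_empty
  | halt => exact Set.finite_empty

theorem stepAux_good (A : Set (Σ k, Γ k)) (q : TM2.Stmt Γ Λ σ) (hq : syms q ⊆ A) (v : σ)
    (S : ∀ k, List (Γ k)) (hS : ∀ k, ∀ a ∈ S k, (⟨k, a⟩ : Σ k, Γ k) ∈ A) :
    ∀ k, ∀ a ∈ (TM2.stepAux q v S).stk k, (⟨k, a⟩ : Σ k, Γ k) ∈ A := by
  induction q generalizing v S with
  | push j f q ih =>
    refine ih (fun x hx => hq (Or.inr hx)) _ _ fun k a ha => ?_
    by_cases hk : k = j
    · subst hk
      rw [update_self] at ha
      rcases List.mem_cons.1 ha with rfl | ha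
      · exact hq (Or.inl ⟨v, rfl⟩)
      · exact hS _ _ ha
    · rw [update_of_ne hk] at ha; exact hS _ _ ha
  | peek _ _ _ ih => exact ih hq _ _ hS
  | pop j f q ih =>
    refine ih hq _ _ fun k a ha => ?_
    by_cases hk : k = j
    · subst hk
      rw [update_self] at ha
      exact hS _ _ (List.mem_of_mem_tail ha)
    · rw [update_of_ne hk] at ha; exact hS _ _ ha
  | load _ _ ih => exact ih hq _ _ hS
  | branch f q₁ q₂ ih1 ih2 =>
    rw [TM2.stepAux]
    cases f v
    · exact ih2 (fun x hx => hq (Or.inr hx)) _ _ hS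
    · exact ih1 (fun x hx => hq (Or.inl hx)) _ _ hS
  | goto _ => exact hS
  | halt => exact hS

theorem stepAux_append (q : TM2.Stmt Γ Λ σ) (v : σ) (P R : ∀ k, List (Γ k))
    (h : ∀ k, depth q ≤ (P k).length ∨ R k = []) :
    TM2.stepAux q v (fun k => P k ++ R k) =
      ⟨(TM2.stepAux q v P).l, (TM2.stepAux q v P).var, fun k => (TM2.stepAux q v P).stk k ++ R k⟩ := by
  induction q generalizing v P with
  | push j f q ih =>
    simp only [TM2.stepAux]
    rw [← ih v (update P j (f v :: P j)) (fun k => by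
      by_cases hk : k = j
      · subst hk; rcases h k with h | h
        · left; simp only [depth] at h; simp; omega
        · exact Or.inr h
      · rw [update_of_ne hk]; exact h k)]
    congr 1
    funext k
    by_cases hk : k = j
    · subst hk; simp
    · simp [update_of_ne hk]
  | peek j f q ih =>
    simp only [TM2.stepAux]
    have : (P j ++ R j).head? = (P j).head? := by
      rcases h j with h | h
      · simp only [depth] at h
        cases hP : P j with
        | nil => simp [hP] at h
        | cons => simp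
      · simp [h]
    rw [this]
    exact ih _ P fun k => (h k).imp (fun h => by simp only [depth] at h; omega) id
  | pop j f q ih =>
    simp only [TM2.stepAux]
    have : (P j ++ R j).head? = (P j).head? ∧ (P j ++ R j).tail = (P j).tail ++ R j := by
      rcases h j with h | h
      · simp only [depth] at h
        cases hP : P j with
        | nil => simp [hP] at h
        | cons => simp
      · simp [h]
    rw [this.1, this.2]
    rw [← ih _ (update P j (P j).tail) (fun k => by
      by_cases hk : k = j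
      · subst hk; rcases h k with h | h
        · left; simp only [depth] at h; simp; omega
        · exact Or.inr h
      · rw [update_of_ne hk]
        exact (h k).imp (fun h => by simp only [depth] at h; omega) id)]
    congr 1
    funext k
    by_cases hk : k = j
    · subst hk; simp
    · simp [update_of_ne hk]
  | load f q ih => exact ih _ P h
  | branch f q₁ q₂ ih1 ih2 =>
    simp only [TM2.stepAux]
    cases f v
    · exact ih2 _ P fun k => (h k).imp (fun h => by simp only [depth] at h; omega) id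
    · exact ih1 _ P fun k => (h k).imp (fun h => by simp only [depth] at h; omega) id
  | goto _ => rfl
  | halt => rfl

/-- The step function, made total by fixing halted configurations. -/
def next (m : Λ → TM2.Stmt Γ Λ σ) (c : TM2.Cfg Γ Λ σ) : TM2.Cfg Γ Λ σ := (TM2.step m c).getD c

def trunc (D : ℕ) (c : TM2.Cfg Γ Λ σ) : TM2.Cfg Γ Λ σ := ⟨c.l, c.var, fun k => (c.stk k).take D⟩

theorem next_trunc (m : Λ → TM2.Stmt Γ Λ σ) (D : ℕ) (hD : ∀ l, depth (m l) ≤ D)
    (c : TM2.Cfg Γ Λ σ) : next m c = ⟨(next m (trunc D c)).l, (next m (trunc D c)).var,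
      fun k => (next m (trunc D c)).stk k ++ (c.stk k).drop D⟩ := by
  rcases c with ⟨_ | l, v, S⟩
  · simp [next, trunc]
  · have := stepAux_append (m l) v (fun k => (S k).take D) (fun k => (S k).drop D) fun k => by
      by_cases h : D ≤ (S k).length
      · left; simp [h, hD l]
      · right; simp; omega
    simpa [next, trunc] using this

theorem iterate_next (m : Λ → TM2.Stmt Γ Λ σ) (n : ℕ) (c c' : TM2.Cfg Γ Λ σ)
    (h : (flip bind (TM2.step m))^[n] (some c) = some c') : (next m)^[n] c = c' := by
  induction n generalizing c with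
  | zero => simpa using h
  | succ n ih =>
    rw [iterate_succ_apply] at h ⊢
    cases hc : TM2.step m c with
    | none =>
      have : ∀ n, (flip bind (TM2.step m))^[n] none = none := fun n => iterate_fixed rfl n
      have e : flip bind (TM2.step m) (some c) = none := hc
      rw [e, this] at h
      cases h
    | some d =>
      apply ih
      simpa [flip, hc, next] using h

end stmt

theorem finite_lists {α : Type} {S : Set α} (hS : S.Finite) (D : ℕ) :
    {l : List α | l.length ≤ D ∧ ∀ a ∈ l, a ∈ S}.Finite := by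
  have := hS.to_subtype
  refine ((List.finite_length_le S D).image (List.map Subtype.val)).subset ?_
  rintro l ⟨h1, h2⟩
  exact ⟨l.pmap Subtype.mk h2, by simpa using h1, by simp [List.map_pmap]⟩

theorem exists_loc (tm : FinTM2) (e0 : Bool → tm.Γ tm.k₀) (e1 : Bool → tm.Γ tm.k₁)
    (he1 : Injective e1) : ∃ (M : Loc) (run : List Bool → ℕ → ℕ → ℕ → ℕ), M.Spec run ∧
      ∀ y b n, (flip bind tm.step)^[n] (some (initList tm (y.map e0))) = some (haltList tm [e1 b]) →
        ∀ T, n ≤ T → (run y T M.k1 0 = M.cF ↔ b = false) := by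
  classical
  have := tm.kFin; have := tm.ΛFin; have := tm.σFin
  let A : Set (Σ k, tm.Γ k) := Set.range (fun b => ⟨tm.k₀, e0 b⟩) ∪
    Set.range (fun b => ⟨tm.k₁, e1 b⟩) ∪ ⋃ l, syms (tm.m l)
  have hA : A.Finite := ((Set.finite_range _).union (Set.finite_range _)).union
    (Set.finite_iUnion fun l => syms_finite _)
  obtain ⟨D, hD⟩ : ∃ D, ∀ l, depth (tm.m l) ≤ D :=
    ⟨Finset.univ.sup fun l => depth (tm.m l), fun l =>
      Finset.le_sup (f := fun l => depth (tm.m l)) (Finset.mem_univ l)⟩
  obtain ⟨nA, code, hcode, hcinj⟩ : ∃ (nA : ℕ) (code : (Σ k, tm.Γ k) → ℕ),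
      (∀ a ∈ A, code a + 1 < nA) ∧ Set.InjOn code A := by
    refine ⟨hA.toFinset.toList.length + 1, fun a => hA.toFinset.toList.idxOf a, fun a ha => ?_,
      fun a ha b _ hab => ?_⟩
    · have := List.idxOf_lt_length_of_mem (l := hA.toFinset.toList) (a := a) (by simpa using ha)
      exact Nat.succ_lt_succ this
    · exact (List.idxOf_inj (by simpa using ha)).1 hab
  have hnA : 0 < nA := by
    have := hcode ⟨tm.k₀, e0 true⟩ (Or.inl (Or.inl ⟨true, rfl⟩)); omega
  obtain ⟨qcode, hq⟩ : ∃ f : Option tm.Λ × tm.σ → ℕ, Injective f := exists_injective_nat _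
  let nK := Fintype.card tm.K
  let eK := Fintype.equivFin tm.K
  let kk : ℕ → tm.K := fun n => if h : n < nK then eK.symm ⟨n, h⟩ else tm.k₀
  have hkk : ∀ k, kk (eK k) = k := fun k => by simp [kk, nK]
  have hkk' : ∀ n < nK, (eK (kk n) : ℕ) = n := fun n h => by simp [kk, h]
  let cell : ∀ k, Option (tm.Γ k) → ℕ := fun k o => o.elim 0 fun a => code ⟨k, a⟩ + 1
  let val : tm.Cfg → ℕ → ℕ → ℕ := fun c k i =>
    if k < nK then cell (kk k) ((c.stk (kk k))[i]?) else qcode (c.l, c.var)
  have hval : ∀ c k i, k < nK → val c k i = cell (kk k) ((c.stk (kk k))[i]?) :=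
    fun c k i h => if_pos h
  have hvalq : ∀ c i, val c nK i = qcode (c.l, c.var) := fun c i => if_neg (lt_irrefl _)
  let Good : tm.Cfg → Prop := fun c => ∀ k, ∀ a ∈ c.stk k, (⟨k, a⟩ : Σ k, tm.Γ k) ∈ A
  have hgood : ∀ c, Good c → Good (next tm.m c) := by
    rintro ⟨_ | l, v, S⟩ hc
    · exact hc
    · exact stepAux_good A (tm.m l) (fun x hx => Or.inr (Set.mem_iUnion.2 ⟨l, hx⟩)) v S hc
  have hinit : ∀ y : List Bool, Good (initList tm (y.map e0)) := by
    intro y k a ha
    by_cases hk : k = tm.k₀
    · subst hk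
      have : a ∈ y.map e0 := by simpa [initList] using ha
      obtain ⟨b, -, rfl⟩ := List.mem_map.1 this
      exact Or.inl (Or.inl ⟨b, rfl⟩)
    · simp [initList, hk] at ha
  have hrun : ∀ (y : List Bool) t, Good ((next tm.m)^[t] (initList tm (y.map e0))) := by
    intro y t
    induction t with
    | zero => exact hinit y
    | succ t ih => rw [iterate_succ_apply']; exact hgood _ ih
  let H : Set tm.Cfg := {c | Good c ∧ ∀ k, (c.stk k).length ≤ D}
  have hH : H.Finite := by
    have h1 : ∀ k, {l : List (tm.Γ k) | l.length ≤ D ∧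
        ∀ a ∈ l, a ∈ {a | (⟨k, a⟩ : Σ k, tm.Γ k) ∈ A}}.Finite := fun k =>
      finite_lists (hA.preimage (sigma_mk_injective.injOn)) D
    have h2 := (Set.finite_univ (α := Option tm.Λ × tm.σ)).prod (Set.Finite.pi' h1)
    refine (h2.image fun p => (⟨p.1.1, p.1.2, p.2⟩ : TM2.Cfg tm.Γ tm.Λ tm.σ)).subset ?_
    rintro ⟨l, v, S⟩ ⟨h3, h4⟩
    exact ⟨((l, v), S), ⟨trivial, fun k => ⟨h4 k, h3 k⟩⟩, rfl⟩
  let rule : tm.Cfg → Rule := fun h =>
    ((nK, 0, val h nK 0) :: (List.range nK).flatMap fun k =>
        (List.range D).map fun j => (k, j, val h k j),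
      val (next tm.m h) nK 0,
      (List.range nK).map fun k => ((next tm.m h).stk (kk k)).map fun a => code ⟨kk k, a⟩ + 1)
  have hmatch : ∀ c h, (∀ p ∈ (rule h).1, val c p.1 p.2.1 = p.2.2) ↔
      (val c nK 0 = val h nK 0 ∧ ∀ k < nK, ∀ j < D, val c k j = val h k j) := by
    intro c h
    simp only [rule, List.mem_cons, List.mem_flatMap, List.mem_map, List.mem_range,
      forall_eq_or_imp]
    refine and_congr Iff.rfl ⟨fun h1 k hk j hj => h1 _ ⟨k, hk, j, hj, rfl⟩, ?_⟩
    rintro h1 _ ⟨k, hk, j, hj, rfl⟩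
    exact h1 k hk j hj
  have htrunc : ∀ c, Good c → trunc D c ∈ H := fun c hc =>
    ⟨fun k a ha => hc k a (List.mem_of_mem_take ha), fun k => by simp [trunc]⟩
  have huniq : ∀ c, Good c → ∀ h ∈ H, (∀ p ∈ (rule h).1, val c p.1 p.2.1 = p.2.2) →
      h = trunc D c := by
    rintro ⟨l, v, S⟩ hc ⟨l', v', S'⟩ hh hm
    obtain ⟨h1, h2⟩ := (hmatch _ _).1 hm
    rw [hvalq, hvalq] at h1
    obtain ⟨rfl, rfl⟩ := Prod.mk.inj (hq h1)
    unfold trunc
    congr 1
    funext k
    apply List.ext_getElem?
    intro j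
    by_cases hj : j < D
    · have h3 := h2 (eK k) (eK k).2 j hj
      rw [hval _ _ _ (eK k).2, hval _ _ _ (eK k).2, hkk] at h3
      rw [List.getElem?_take_of_lt hj]
      change cell k (S k)[j]? = cell k (S' k)[j]? at h3
      cases ha : (S k)[j]? with
      | none => cases hb : (S' k)[j]? with
        | none => rfl
        | some b => simp [ha, hb, cell] at h3
      | some a => cases hb : (S' k)[j]? with
        | none => simp [ha, hb, cell] at h3
        | some b =>
          simp only [ha, hb, cell, Option.elim_some, add_left_inj] at h3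
          have := hcinj (hc k a (List.mem_of_getElem? ha)) (hh.1 k b (List.mem_of_getElem? hb)) h3
          rw [sigma_mk_injective this]
    · have := hh.2 k
      rw [List.getElem?_eq_none (by simp only at this; omega),
        List.getElem?_eq_none (by simp; omega)]
  refine ⟨⟨nK, D, nA, eK tm.k₀, eK tm.k₁, qcode (some tm.main, tm.initialState),
    code ⟨_, e0 false⟩ + 1, code ⟨_, e0 true⟩ + 1, code ⟨_, e1 false⟩ + 1,
    hH.toFinset.toList.map rule⟩, fun y t => val ((next tm.m)^[t] (initList tm (y.map e0))),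
    ⟨(eK _).2, (eK _).2, ?_, ?_, ?_, ?_, ?_, ?_, ?_, ?_⟩, ?_⟩
  · intro r hr p hp
    obtain ⟨h, -, rfl⟩ := List.mem_map.1 hr
    simp only [rule, List.mem_cons, List.mem_flatMap, List.mem_map, List.mem_range] at hp
    rcases hp with rfl | ⟨k, hk, j, hj, rfl⟩
    · exact Or.inl ⟨rfl, rfl⟩
    · exact Or.inr ⟨hk, hj⟩
  · intro y; exact hvalq _ _
  · intro y i
    simp only [iterate_zero, id]
    rw [hval _ _ _ (eK _).2, hkk]
    have : (initList tm (y.map e0)).stk tm.k₀ = y.map e0 := by simp [initList]
    rw [this, List.getElem?_map]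
    rcases y[i]? with _ | _ | _ <;> rfl
  · intro y k i hk hk'
    simp only [iterate_zero, id]
    rw [hval _ _ _ hk]
    have : kk k ≠ tm.k₀ := fun h =>
      hk' ((hkk' k hk).symm.trans (congrArg (fun z => (eK z : ℕ)) h))
    simp [initList, this, cell]
  · intro y t
    refine ⟨rule (trunc D _), List.mem_map.2 ⟨_, Finset.mem_toList.2
      (hH.mem_toFinset.2 (htrunc _ (hrun y t))), rfl⟩, ?_⟩
    refine (hmatch _ _).2 ⟨by rw [hvalq, hvalq]; rfl, fun k hk j hj => ?_⟩
    rw [hval _ _ _ hk, hval _ _ _ hk]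
    simp only [trunc]
    rw [List.getElem?_take_of_lt hj]
  · intro y t r hr hm
    obtain ⟨h, hh, rfl⟩ := List.mem_map.1 hr
    have := huniq _ (hrun y t) h (by simpa using hh) hm
    subst this
    simp only [iterate_succ_apply', rule]
    rw [hvalq, hvalq]
    conv_lhs => rw [next_trunc tm.m D hD]
  · intro y t r hr hm k hk i
    obtain ⟨h, hh, rfl⟩ := List.mem_map.1 hr
    have := huniq _ (hrun y t) h (by simpa using hh) hm
    subst this
    simp only [iterate_succ_apply']
    generalize (next tm.m)^[t] (initList tm (y.map e0)) = c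
    have hk' : k < nK := hk
    have e : (rule (trunc D c)).2.2.getD k [] =
        ((next tm.m (trunc D c)).stk (kk k)).map fun a => code ⟨kk k, a⟩ + 1 := by
      simp only [rule]
      rw [List.getD_eq_getElem?_getD, List.getElem?_map, List.getElem?_range hk']
      rfl
    rw [e, hval _ _ _ hk', hval _ _ _ hk']
    conv_lhs => rw [next_trunc tm.m D hD]
    simp only [List.length_map]
    split_ifs with hi
    · rw [List.getElem?_append_left hi]
      simp [hi, cell]
    · rw [List.getElem?_append_right (by omega), List.getElem?_drop, Nat.add_comm]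
  · intro y t k i hk
    have hk' : k < nK := hk
    simp only
    rw [hval _ _ _ hk']
    cases ha : (((next tm.m)^[t] (initList tm (y.map e0))).stk (kk k))[i]? with
    | none => exact hnA
    | some a => exact hcode _ (hrun y t _ _ (List.mem_of_getElem? ha))
  · intro y b n hn T hT
    have h1 := iterate_next tm.m n _ _ hn
    obtain ⟨d, rfl⟩ := Nat.exists_eq_add_of_le' hT
    simp only
    rw [iterate_add_apply, h1, iterate_fixed (by rfl), hval _ _ _ (eK _).2, hkk]
    have : (haltList tm [e1 b]).stk tm.k₁ = [e1 b] := by simp [haltList]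
    rw [this]
    simp only [List.getElem?_cons_zero, cell, Option.elim_some, add_left_inj]
    constructor
    · intro h
      exact he1 (sigma_mk_injective
        (hcinj (Or.inl (Or.inr ⟨b, rfl⟩)) (Or.inl (Or.inr ⟨false, rfl⟩)) h))
    · rintro rfl; rfl

/-- Every language of `NP` reduces to `Q` by a `PT` map. -/
def NPHardPT {β : Type} [Enc β] (Q : β → Prop) : Prop :=
  ∀ L ∈ NP, ∃ f : List Bool → β, PT f ∧ ∀ x, L x = true ↔ Q (f x)

theorem NPHardPT.reduce {β γ : Type} [Enc β] [Enc γ] {Q : β → Prop} {Q' : γ → Prop}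
    (h : NPHardPT Q) {g : β → γ} (hg : PT g) (H : ∀ b, Q b ↔ Q' (g b)) : NPHardPT Q' := by
  intro L hL
  obtain ⟨f, hf, hf'⟩ := h L hL
  exact ⟨fun x => g (f x), hg.comp hf, fun x => (hf' x).trans (H _)⟩

theorem NPHardPT.manyOne {L : DecisionProblem} (h : NPHardPT (fun x => L x = true)) :
    ∀ L' ∈ NP, ManyOneReducible L' L := by
  intro L' hL
  obtain ⟨f, hf, hf'⟩ := h L' hL
  exact ⟨f, hf.isPolyTime_fun, fun x => Bool.eq_iff_iff.2 (hf' x)⟩

/-- The Cook-Levin theorem. -/
theorem cook_levin : NPHardPT (CNF.Sat (V := Var4)) := by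
  rintro L ⟨p, R, ⟨h⟩, hL⟩
  obtain ⟨M, run, hM, hrun⟩ := exists_loc h.tm h.inputAlphabet.symm h.outputAlphabet.symm
    h.outputAlphabet.symm.injective
  have key : ∀ x w : List Bool, w.length ≤ p.eval x.length →
      (run (delimit (enc x) ++ enc w)
        (h.time.eval ((delimit (enc x)).length + 3 * p.eval x.length)) M.k1 0 ≠ M.cF ↔
        R (x, w) = true) := by
    intro x w hw
    have o := h.outputsFun (x, w)
    have := hrun (delimit (enc x) ++ enc w) (R (x, w)) o.steps o.evals_in_steps _
      (o.steps_le_m.trans (eval_mono h.time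
        (show (delimit (enc x) ++ enc w).length ≤ (delimit (enc x)).length + 3 * p.eval x.length by
          have := PT.sz_bits w
          rw [List.length_append]; unfold sz at this; omega)))
    rw [Ne, this]; simp
  refine ⟨fun x => M.cnf (delimit (enc x)) (p.eval x.length)
    (h.time.eval ((delimit (enc x)).length + 3 * p.eval x.length)),
    M.pt_cnf (by fun_prop) (by fun_prop) (by fun_prop), fun x => (hL x).trans ⟨?_, fun hs => ?_⟩⟩
  · rintro ⟨w, hw, hR⟩
    exact Loc.complete hM _ w _ _ hw ((key x w hw).2 hR)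
  · obtain ⟨w, hw, hR⟩ := Loc.sound hM _ _ _ hs
    exact ⟨w, hw, (key x w hw).1 hR⟩

end Pool.Agent.Lib.NP
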