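import Pool.Agent.Lib.NP.Raw

/-! Typed polynomial-time functions, with closure rules for `fun_prop`.
Natural numbers are encoded in unary here. -/

namespace Pool.Agent.Lib.NP

open Function N487b59b3

class Enc (α : Type) where
  enc : α → List Bool
  inj : Injective enc

export Enc (enc)

theorem delimit_append_inj {a b c d : List Bool} (h : delimit a ++ b = delimit c ++ d) :
    a = c ∧ b = d := by
  have := congrArg undelimit h
  simpa using this

theorem blocks_inj {l l' : List (List Bool)}
    (h : (l.map delimit).flatten = (l'.map delimit).flatten) : l = l' := by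
  have := congrArg undelimitBlocks h
  simpa [undelimitBlocks_flatten_delimit] using this

instance : Enc Bool := ⟨fun b => [b], fun _ _ h => by simpa using h⟩
instance : Enc Unit := ⟨fun _ => [], fun _ _ _ => rfl⟩
instance : Enc ℕ := ⟨fun n => List.replicate n false, fun _ _ h => by simpa using congrArg List.length h⟩
instance {α β : Type} [Enc α] [Enc β] : Enc (α × β) :=
  ⟨fun p => delimit (enc p.1) ++ enc p.2, fun _ _ h =>
    Prod.ext (Enc.inj (delimit_append_inj h).1) (Enc.inj (delimit_append_inj h).2)⟩
instance {α : Type} [Enc α] : Enc (List α) :=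
  ⟨fun l => ((l.map enc).map delimit).flatten, fun _ _ h =>
    List.map_injective_iff.2 Enc.inj (blocks_inj h)⟩
instance {α : Type} [Enc α] : Enc (Option α) :=
  ⟨fun o => enc o.toList, fun a b h => by
    have := Enc.inj h
    cases a <;> cases b <;> simp_all⟩
instance {α : Type} [Enc α] (p : α → Prop) : Enc (Subtype p) :=
  ⟨fun a => enc a.1, fun _ _ h => Subtype.ext (Enc.inj h)⟩

/-- Size of the encoding. -/
def sz {α : Type} [Enc α] (a : α) : ℕ := (enc a).length

section
variable {α β γ σ : Type} [Enc α] [Enc β] [Enc γ] [Enc σ]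

theorem enc_bool (b : Bool) : enc b = [b] := rfl
theorem enc_nat (n : ℕ) : enc n = List.replicate n false := rfl
theorem enc_prod (a : α) (b : β) : enc (a, b) = delimit (enc a) ++ enc b := rfl
theorem enc_nil : enc ([] : List α) = [] := rfl
theorem enc_cons (a : α) (l : List α) : enc (a :: l) = delimit (enc a) ++ enc l := rfl

@[simp] theorem sz_bool (b : Bool) : sz b = 1 := rfl
@[simp] theorem sz_unit (b : Unit) : sz b = 0 := rfl
@[simp] theorem sz_nat (n : ℕ) : sz n = n := by simp [sz, enc_nat]
@[simp] theorem sz_prod (a : α) (b : β) : sz (a, b) = 2 * sz a + 1 + sz b := by simp [sz, enc_prod]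
@[simp] theorem sz_nil : sz ([] : List α) = 0 := rfl
@[simp] theorem sz_cons (a : α) (l : List α) : sz (a :: l) = 2 * sz a + 1 + sz l := by
  simp [sz, enc_cons]
@[simp] theorem sz_append (l l' : List α) : sz (l ++ l') = sz l + sz l' := by
  induction l with
  | nil => simp
  | cons a l ih => simp [ih]; omega
theorem length_le_sz (l : List α) : l.length ≤ sz l := by
  induction l with
  | nil => simp
  | cons a l ih => simp; omega
theorem sz_le_of_mem {a : α} {l : List α} (h : a ∈ l) : sz a ≤ sz l := by
  induction h with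
  | head => simp; omega
  | tail _ _ ih => simp; omega
theorem sz_tail_le (l : List α) : sz l.tail ≤ sz l := by
  cases l <;> simp
theorem sz_fst_le (p : α × β) : sz p.1 ≤ sz p := by
  rcases p with ⟨a, b⟩; simp; omega
theorem sz_snd_le (p : α × β) : sz p.2 ≤ sz p := by
  rcases p with ⟨a, b⟩; simp
@[simp] theorem sz_reverse (l : List α) : sz l.reverse = sz l := by
  induction l with
  | nil => simp
  | cons a l ih => simp [ih]; omega

end

/-- Polynomial-time functions between encoded types. -/
@[fun_prop]
def PT {α β : Type} [Enc α] [Enc β] (f : α → β) : Prop := PTe enc (fun a => enc (f a))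

namespace PT

open Polynomial

variable {α β γ σ : Type} [Enc α] [Enc β] [Enc γ] [Enc σ]

@[fun_prop] theorem id' : PT (fun a : α => a) := PTe.refl _

@[fun_prop] theorem const (b : β) : PT (fun _ : α => b) := PTe.const _ _

@[fun_prop] theorem comp {f : β → γ} {g : α → β} (hf : PT f) (hg : PT g) :
    PT (fun a => f (g a)) :=
  PTe.trans hg (PTe.reindex hf fun a => ⟨g a, rfl, rfl⟩)

@[fun_prop] theorem mk {f : α → β} {g : α → γ} (hf : PT f) (hg : PT g) :
    PT (fun a => (f a, g a)) := PTe.pair hf hg

@[fun_prop] theorem fst {f : α → β × γ} (hf : PT f) : PT (fun a => (f a).1) :=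
  PTe.trans hf (PTe.fst'.reindex fun a => ⟨(enc (f a).1, enc (f a).2), rfl, rfl⟩)

@[fun_prop] theorem snd {f : α → β × γ} (hf : PT f) : PT (fun a => (f a).2) :=
  PTe.trans hf (PTe.snd'.reindex fun a => ⟨(enc (f a).1, enc (f a).2), rfl, rfl⟩)

theorem congr {f g : α → β} (hf : PT f) (h : ∀ a, f a = g a) : PT g := funext h ▸ hf

theorem of_enc_eq {f : α → β} (h : ∀ a, enc (f a) = enc a) : PT f :=
  (PTe.refl (enc : α → List Bool)).reindex fun a => ⟨a, rfl, (h a).symm⟩

theorem size {f : α → β} (hf : PT f) : ∃ q : Polynomial ℕ, ∀ a, sz (f a) ≤ q.eval (sz a) :=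
  PTe.size hf

theorem val (p : α → Prop) : PT (fun a : Subtype p => a.1) := of_enc_eq fun _ => rfl

theorem restrict {f : α → β} (hf : PT f) (p : α → Prop) : PT (fun a : Subtype p => f a.1) :=
  hf.comp (val p)

@[fun_prop] theorem enc' {f : α → β} (hf : PT f) : PT (fun a => enc (f a)) :=
  PTe.trans hf (PTe.explode'.reindex fun a => ⟨enc (f a), rfl, by
    simp [enc, List.map_map, Function.comp_def]⟩)

@[fun_prop] theorem cons {f : α → β} {g : α → List β} (hf : PT f) (hg : PT g) :
    PT (fun a => f a :: g a) := PTe.pair hf hg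

theorem enc_eq_nil {l : List α} : (enc l).isEmpty = l.isEmpty := by
  cases l with
  | nil => rfl
  | cons a l => cases h : enc a <;> simp [enc_cons, h, delimit]

@[fun_prop] theorem isEmpty {g : α → List β} (hg : PT g) : PT (fun a => (g a).isEmpty) :=
  PTe.trans hg (PTe.isEmpty'.reindex fun a => ⟨enc (g a), rfl, by rw [enc_eq_nil]; rfl⟩)

theorem dcond {c : α → Bool} {f : α → β} (hc : PT c)
    (h1 : PT (fun a : {a // c a = true} => f a)) (h2 : PT (fun a : {a // c a = false} => f a)) :
    PT f := PTe.ite c hc h1 h2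

@[fun_prop] theorem cond {c : α → Bool} {f g : α → β} (hc : PT c) (hf : PT f) (hg : PT g) :
    PT (fun a => bif c a then f a else g a) :=
  dcond hc ((hf.restrict _).congr fun a => by rw [a.2]; rfl)
    ((hg.restrict _).congr fun a => by rw [a.2]; rfl)

@[fun_prop] theorem ite {c : α → Prop} [DecidablePred c] {f g : α → β}
    (hc : PT (fun a => decide (c a))) (hf : PT f) (hg : PT g) :
    PT (fun a => if c a then f a else g a) :=
  (cond hc hf hg).congr fun a => by by_cases h : c a <;> simp [h]

/-- Case analysis on a list. -/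
theorem listCases {l : α → List β} {n : α → γ} {c : α → β → List β → γ} {f : α → γ}
    (hl : PT l) (hn : PT n) (hc : PT (fun p : α × β × List β => c p.1 p.2.1 p.2.2))
    (h0 : ∀ a, l a = [] → f a = n a) (h1 : ∀ a b t, l a = b :: t → f a = c a b t) : PT f := by
  refine dcond hl.isEmpty ((hn.restrict _).congr fun a => ?_) ?_
  · exact (h0 a (by simpa using a.2)).symm
  · have hne : ∀ a : {a // (l a).isEmpty = false}, l a ≠ [] := fun a => by simpa using a.2
    have h2 : PT (fun a : {a // (l a).isEmpty = false} => ((l a).head (hne a), (l a).tail)) := by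
      refine PTe.reindex (hl.restrict (fun a => (l a).isEmpty = false)) fun a => ⟨a, rfl, ?_⟩
      exact congrArg enc (List.cons_head_tail (hne a)).symm
    refine (hc.comp ((val _).mk h2)).congr fun a => ?_
    exact (h1 a _ _ (List.cons_head_tail (hne a)).symm).symm

@[fun_prop] theorem tail {l : α → List β} (hl : PT l) : PT (fun a => (l a).tail) :=
  listCases (n := fun _ => []) (c := fun _ _ t => t) hl (by fun_prop) (by fun_prop)
    (fun a h => by simp [h]) (fun a b t h => by simp [h])

@[fun_prop] theorem headD {l : α → List β} {d : α → β} (hl : PT l) (hd : PT d) :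
    PT (fun a => (l a).headD (d a)) :=
  listCases (n := d) (c := fun _ b _ => b) hl hd (by fun_prop)
    (fun a h => by simp [h]) (fun a b t h => by simp [h])

/-- Iteration with a polynomial bound on the size of the intermediate states. -/
theorem iterate {g : σ → σ} {n : α → ℕ} {s0 : α → σ} (hg : PT g) (hn : PT n) (h0 : PT s0)
    (r : Polynomial ℕ) (hr : ∀ a, ∀ i ≤ n a, sz (g^[i] (s0 a)) ≤ r.eval (sz a)) :
    PT (fun a => g^[n a] (s0 a)) := by
  have := PTe.iterate (cnt := fun a => enc (n a)) hg hn h0 r (by simpa [enc_nat, sz] using hr)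
  simpa [enc_nat, PT] using this

/-- One step of a left fold. -/
def foldStep (f : α → σ → β → σ) : α × List β × σ → α × List β × σ
  | (a, [], s) => (a, [], s)
  | (a, b :: t, s) => (a, t, f a s b)

omit [Enc α] [Enc β] [Enc σ] in
theorem foldStep_iter (f : α → σ → β → σ) (a : α) (l : List β) (s : σ) (i : ℕ) :
    (foldStep f)^[i] (a, l, s) = (a, l.drop i, (l.take i).foldl (f a) s) := by
  induction i generalizing l s with
  | zero => simp
  | succ i ih =>
    rw [iterate_succ_apply]
    cases l with
    | nil => simpa [foldStep] using ih [] s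
    | cons b t => simpa [foldStep] using ih t (f a s b)

theorem sz_drop_le (l : List β) (i : ℕ) : sz (l.drop i) ≤ sz l := by
  have := sz_append (l.take i) (l.drop i)
  rw [List.take_append_drop] at this; omega

theorem sz_take_le (l : List β) (i : ℕ) : sz (l.take i) ≤ sz l := by
  have := sz_append (l.take i) (l.drop i)
  rw [List.take_append_drop] at this; omega

/-- Left fold with a polynomial bound on the size of the intermediate states. -/
theorem foldl {f : α → σ → β → σ} {l : α → List β} {s0 : α → σ}
    (hf : PT (fun p : α × σ × β => f p.1 p.2.1 p.2.2)) (hl : PT l) (h0 : PT s0)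
    (r : Polynomial ℕ) (hr : ∀ a i, sz (((l a).take i).foldl (f a) (s0 a)) ≤ r.eval (sz a)) :
    PT (fun a => (l a).foldl (f a) (s0 a)) := by
  have hg : PT (foldStep f) := by
    refine listCases (l := fun p => p.2.1) (n := fun p => p)
      (c := fun p b t => (p.1, t, f p.1 p.2.2 b)) (by fun_prop) (by fun_prop) ?_ ?_ ?_
    · refine mk (by fun_prop) (mk (by fun_prop) ?_)
      exact hf.comp (g := fun p : (α × List β × σ) × β × List β => (p.1.1, p.1.2.2, p.2.1))
        (by fun_prop)
    · rintro ⟨a, l, s⟩ (rfl : l = []); rfl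
    · rintro ⟨a, l, s⟩ b t (rfl : l = b :: t); rfl
  obtain ⟨rl, hrl⟩ := hl.size
  have := PTe.iterate (cnt := fun a => enc (l a)) (s0 := fun a => (a, l a, s0 a)) hg hl
    (id'.mk (hl.mk h0)) (2 * X + 1 + (2 * rl + 1 + r)) (fun a i _ => by
      rw [foldStep_iter]
      have h1 := hr a i
      have h2 := (sz_drop_le (l a) i).trans (hrl a)
      change sz _ ≤ Polynomial.eval (sz a) _
      simp; omega)
  have h2 : PT (fun a => (foldStep f)^[sz (l a)] (a, l a, s0 a)) := this
  refine h2.snd.snd.congr fun a => ?_
  rw [foldStep_iter, List.take_of_length_le (length_le_sz _)]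

/-- Left fold whose state grows additively. -/
theorem foldl_add {f : α → σ → β → σ} {l : α → List β} {s0 : α → σ}
    (hf : PT (fun p : α × σ × β => f p.1 p.2.1 p.2.2)) (hl : PT l) (h0 : PT s0)
    (r : Polynomial ℕ) (hr : ∀ a s b, sz (f a s b) ≤ sz s + r.eval (sz a + sz b)) :
    PT (fun a => (l a).foldl (f a) (s0 a)) := by
  obtain ⟨rl, hrl⟩ := hl.size
  obtain ⟨r0, hr0⟩ := h0.size
  refine foldl hf hl h0 (r0 + rl * r.comp (X + rl)) fun a i => ?_
  have key : ∀ (t : List β) (s : σ) (B : ℕ), (∀ b ∈ t, sz b ≤ B) →
      sz (t.foldl (f a) s) ≤ sz s + t.length * r.eval (sz a + B) := by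
    intro t
    induction t with
    | nil => simp
    | cons b t ih =>
      intro s B hB
      have h1 := ih (f a s b) B (fun x hx => hB x (by simp [hx]))
      have h2 := hr a s b
      have h3 := eval_mono r (Nat.add_le_add_left (hB b (by simp)) (sz a))
      simp [Nat.add_mul]; omega
  have h1 := key ((l a).take i) (s0 a) (rl.eval (sz a))
    (fun b hb => (sz_le_of_mem (List.mem_of_mem_take hb)).trans (hrl a))
  have h2 : ((l a).take i).length ≤ rl.eval (sz a) :=
    (length_le_sz _).trans ((sz_take_le _ _).trans (hrl a))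
  have h3 := Nat.mul_le_mul_right (r.eval (sz a + rl.eval (sz a))) h2
  have h4 := hr0 a
  simp only [eval_add, eval_mul, eval_comp, eval_X]
  omega

end PT

end Pool.Agent.Lib.NP
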