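import Pool.Agent.Lib.NP.PT

/-! Closure rules for `PT`: Booleans, lists, unary naturals, equality tests. -/

namespace Pool.Agent.Lib.NP

open Function N487b59b3 Polynomial

namespace PT

variable {α β γ σ : Type} [Enc α] [Enc β] [Enc γ] [Enc σ]

/-! ### Booleans -/

@[fun_prop] theorem not {f : α → Bool} (hf : PT f) : PT (fun a => !f a) :=
  (cond hf (const false) (const true)).congr fun a => by cases f a <;> rfl

@[fun_prop] theorem and {f g : α → Bool} (hf : PT f) (hg : PT g) : PT (fun a => f a && g a) :=
  (cond hf hg (const false)).congr fun a => by cases f a <;> rfl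

@[fun_prop] theorem or {f g : α → Bool} (hf : PT f) (hg : PT g) : PT (fun a => f a || g a) :=
  (cond hf (const true) hg).congr fun a => by cases f a <;> rfl

@[fun_prop] theorem xor {f g : α → Bool} (hf : PT f) (hg : PT g) : PT (fun a => xor (f a) (g a)) :=
  (cond hf hg.not hg).congr fun a => by cases f a <;> cases g a <;> rfl

/-! ### Lists -/

@[fun_prop] theorem reverse {l : α → List β} (hl : PT l) : PT (fun a => (l a).reverse) :=
  (foldl_add (f := fun _ s b => b :: s) (s0 := fun _ => []) (by fun_prop) hl (by fun_prop)
    (2 * X + 1) (fun a s b => by simp; omega)).congr fun a => by simp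

@[fun_prop] theorem append {l l' : α → List β} (hl : PT l) (hl' : PT l') :
    PT (fun a => l a ++ l' a) :=
  (foldl_add (f := fun _ s b => b :: s) (by fun_prop) hl.reverse hl'
    (2 * X + 1) (fun a s b => by simp; omega)).congr fun a => by simp

@[fun_prop] theorem flatMap {f : α → β → List γ} {l : α → List β}
    (hf : PT (fun p : α × β => f p.1 p.2)) (hl : PT l) : PT (fun a => (l a).flatMap (f a)) := by
  obtain ⟨r, hr⟩ := hf.size
  refine (foldl_add (f := fun a s b => s ++ f a b) (s0 := fun _ => []) ?_ hl (by fun_prop)
    (r.comp (2 * X + 1)) (fun a s b => ?_)).congr fun a => ?_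
  · exact append (by fun_prop) (hf.comp (g := fun p : α × List γ × β => (p.1, p.2.2)) (by fun_prop))
  · have h1 := hr (a, b)
    have h2 := eval_mono r (show sz (a, b) ≤ 2 * (sz a + sz b) + 1 by simp; omega)
    simp at h1 h2 ⊢; omega
  · have : ∀ (t : List β) (s : List γ), t.foldl (fun s b => s ++ f a b) s = s ++ t.flatMap (f a) := by
      intro t; induction t with
      | nil => simp
      | cons b t ih => intro s; simp [ih]
    simp [this]

@[fun_prop] theorem map {f : α → β → γ} {l : α → List β}
    (hf : PT (fun p : α × β => f p.1 p.2)) (hl : PT l) : PT (fun a => (l a).map (f a)) :=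
  (flatMap (f := fun a b => [f a b]) (by fun_prop) hl).congr fun a => by
    rw [List.map_eq_flatMap]

@[fun_prop] theorem flatten {l : α → List (List β)} (hl : PT l) : PT (fun a => (l a).flatten) :=
  (flatMap (f := fun _ b => b) (by fun_prop) hl).congr fun a => by simp

@[fun_prop] theorem filter {f : α → β → Bool} {l : α → List β}
    (hf : PT (fun p : α × β => f p.1 p.2)) (hl : PT l) : PT (fun a => (l a).filter (f a)) :=
  (flatMap (f := fun a b => bif f a b then [b] else []) (by fun_prop) hl).congr fun a => by
    induction l a with
    | nil => rfl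
    | cons b t ih => cases h : f a b <;> simp_all

@[fun_prop] theorem any {f : α → β → Bool} {l : α → List β}
    (hf : PT (fun p : α × β => f p.1 p.2)) (hl : PT l) : PT (fun a => (l a).any (f a)) :=
  (filter hf hl).isEmpty.not.congr fun a => by
    rw [Bool.eq_iff_iff]; simp

@[fun_prop] theorem all {f : α → β → Bool} {l : α → List β}
    (hf : PT (fun p : α × β => f p.1 p.2)) (hl : PT l) : PT (fun a => (l a).all (f a)) :=
  (any (f := fun a b => !f a b) hf.not hl).not.congr fun a => by
    rw [Bool.eq_iff_iff]; simp

theorem enc_units (l : List Unit) : enc l = enc l.length := by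
  induction l with
  | nil => rfl
  | cons a l ih => rw [enc_cons, ih]; rfl

theorem units_length : PT (fun l : List Unit => l.length) := of_enc_eq fun l => (enc_units l).symm

theorem units_replicate : PT (fun n : ℕ => List.replicate n ()) :=
  of_enc_eq fun n => by rw [enc_units]; simp

@[fun_prop] theorem length {l : α → List β} (hl : PT l) : PT (fun a => (l a).length) :=
  (units_length.comp (map (f := fun _ _ => ()) (by fun_prop) hl)).congr fun a => by simp

@[fun_prop] theorem replicate {n : α → ℕ} {f : α → β} (hn : PT n) (hf : PT f) :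
    PT (fun a => List.replicate (n a) (f a)) :=
  (map (f := fun a _ => f a) (by fun_prop) (units_replicate.comp hn)).congr fun a => by simp

/-! ### Unary naturals -/

@[fun_prop] theorem add {f g : α → ℕ} (hf : PT f) (hg : PT g) : PT (fun a => f a + g a) :=
  (length (append (units_replicate.comp hf) (units_replicate.comp hg))).congr fun a => by simp

@[fun_prop] theorem succ {f : α → ℕ} (hf : PT f) : PT (fun a => (f a).succ) :=
  add hf (const 1)

@[fun_prop] theorem mul {f g : α → ℕ} (hf : PT f) (hg : PT g) : PT (fun a => f a * g a) :=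
  (length (flatten (replicate hf (units_replicate.comp hg)))).congr fun a => by simp

@[fun_prop] theorem sum {l : α → List ℕ} (hl : PT l) : PT (fun a => (l a).sum) :=
  (length (flatMap (f := fun _ n => List.replicate n ()) (by fun_prop) hl)).congr fun a => by
    simp [List.length_flatMap]

@[fun_prop] theorem drop {n : α → ℕ} {l : α → List β} (hn : PT n) (hl : PT l) :
    PT (fun a => (l a).drop (n a)) := by
  obtain ⟨r, hr⟩ := hl.size
  have key : ∀ (t : List β) (i : ℕ), List.tail^[i] t = t.drop i := by
    intro t i
    induction i generalizing t with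
    | zero => rfl
    | succ i ih => rw [iterate_succ_apply, ih]; simp
  refine (iterate (g := List.tail) (tail id') hn hl r fun a i _ => ?_).congr fun a => key _ _
  rw [key]; exact (sz_drop_le _ _).trans (hr a)

@[fun_prop] theorem sub {f g : α → ℕ} (hf : PT f) (hg : PT g) : PT (fun a => f a - g a) :=
  (length (drop hg (units_replicate.comp hf))).congr fun a => by simp

@[fun_prop] theorem take {n : α → ℕ} {l : α → List β} (hn : PT n) (hl : PT l) :
    PT (fun a => (l a).take (n a)) :=
  (reverse (drop (sub hl.length hn) hl.reverse)).congr fun a => by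
    rw [← List.reverse_take, List.reverse_reverse]

@[fun_prop] theorem decide_le {f g : α → ℕ} [∀ a, Decidable (f a ≤ g a)] (hf : PT f) (hg : PT g) :
    PT (fun a => decide (f a ≤ g a)) :=
  (isEmpty (units_replicate.comp (sub hf hg))).congr fun a => by
    rw [Bool.eq_iff_iff]; simp [Nat.sub_eq_zero_iff_le]

@[fun_prop] theorem decide_lt {f g : α → ℕ} [∀ a, Decidable (f a < g a)] (hf : PT f) (hg : PT g) :
    PT (fun a => decide (f a < g a)) :=
  (decide_le hg hf).not.congr fun a => by
    rw [Bool.eq_iff_iff]; simp

@[fun_prop] theorem range {n : α → ℕ} (hn : PT n) : PT (fun a => List.range (n a)) := by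
  obtain ⟨r, hr⟩ := hn.size
  have key : ∀ i : ℕ, (fun l : List ℕ => l ++ [l.length])^[i] [] = List.range i := by
    intro i
    induction i with
    | zero => rfl
    | succ i ih => rw [iterate_succ_apply', ih]; simp [List.range_succ]
  have hs : ∀ i : ℕ, sz (List.range i) = i * i := by
    intro i
    induction i with
    | zero => rfl
    | succ i ih => simp [List.range_succ, ih]; ring
  refine (iterate (g := fun l : List ℕ => l ++ [l.length]) (s0 := fun _ => []) (by fun_prop) hn
    (by fun_prop) (r * r) fun a i hi => ?_).congr fun a => key _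
  rw [key, hs, eval_mul]
  have := hi.trans (by simpa using hr a)
  exact Nat.mul_le_mul this this

@[fun_prop] theorem countP {f : α → β → Bool} {l : α → List β}
    (hf : PT (fun p : α × β => f p.1 p.2)) (hl : PT l) : PT (fun a => (l a).countP (f a)) :=
  (filter hf hl).length.congr fun a => by rw [List.countP_eq_length_filter]

@[fun_prop] theorem div {f g : α → ℕ} (hf : PT f) (hg : PT g) : PT (fun a => f a / g a) := by
  refine (ite (c := fun a => g a ≤ 0) (by fun_prop) (const 0)
    (countP (f := fun a i => decide ((i + 1) * g a ≤ f a)) (by fun_prop) hf.range)).congr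
    fun a => ?_
  split_ifs with h
  · simp [Nat.le_zero.1 h]
  · have hg0 : 0 < g a := by omega
    have : ∀ n, (List.range n).countP (fun i => decide ((i + 1) * g a ≤ f a)) =
        min n (f a / g a) := by
      intro n
      induction n with
      | zero => simp
      | succ n ih =>
        rw [List.range_succ, List.countP_append, ih]
        by_cases h2 : (n + 1) * g a ≤ f a
        · have := (Nat.le_div_iff_mul_le hg0).2 h2
          simp [h2]; omega
        · have : ¬ n + 1 ≤ f a / g a := fun h => h2 ((Nat.le_div_iff_mul_le hg0).1 h)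
          simp [h2]; omega
    rw [this]
    exact min_eq_right (Nat.div_le_self _ _)

@[fun_prop] theorem mod {f g : α → ℕ} (hf : PT f) (hg : PT g) : PT (fun a => f a % g a) :=
  (sub hf (mul hg (div hf hg))).congr fun a => by rw [Nat.mod_def]

@[fun_prop] theorem pow {f : α → ℕ} (hf : PT f) (k : ℕ) : PT (fun a => f a ^ k) := by
  induction k with
  | zero => exact (const 1).congr fun a => by simp
  | succ k ih => exact (mul ih hf).congr fun a => by rw [pow_succ]

@[fun_prop] theorem polyEval {f : α → ℕ} (hf : PT f) (q : Polynomial ℕ) :
    PT (fun a => q.eval (f a)) := by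
  induction q using Polynomial.induction_on' with
  | add p q hp hq => exact (add hp hq).congr fun a => by simp
  | monomial n c => exact (mul (const c) (pow hf n)).congr fun a => by simp

@[fun_prop] theorem min {f g : α → ℕ} (hf : PT f) (hg : PT g) : PT (fun a => min (f a) (g a)) :=
  (ite (c := fun a => f a ≤ g a) (by fun_prop) hf hg).congr fun a => by rw [min_def]

@[fun_prop] theorem max {f g : α → ℕ} (hf : PT f) (hg : PT g) : PT (fun a => max (f a) (g a)) :=
  (ite (c := fun a => f a ≤ g a) (by fun_prop) hg hf).congr fun a => by rw [max_def]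

/-! ### Indexing and options -/

@[fun_prop] theorem getD {l : α → List β} {n : α → ℕ} {d : α → β} (hl : PT l) (hn : PT n)
    (hd : PT d) : PT (fun a => (l a).getD (n a) (d a)) :=
  (headD (drop hn hl) hd).congr fun a => by simp

theorem toList : PT (fun o : Option α => o.toList) := of_enc_eq fun _ => rfl

@[fun_prop] theorem some' {f : α → β} (hf : PT f) : PT (fun a => some (f a)) :=
  PTe.reindex (cons hf (const [])) fun a => ⟨a, rfl, rfl⟩

@[fun_prop] theorem head? {l : α → List β} (hl : PT l) : PT (fun a => (l a).head?) :=
  listCases (n := fun _ => none) (c := fun _ b _ => some b) hl (by fun_prop) (by fun_prop)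
    (fun a h => by simp [h]) (fun a b t h => by simp [h])

@[fun_prop] theorem getElem? {l : α → List β} {n : α → ℕ} (hl : PT l) (hn : PT n) :
    PT (fun a => (l a)[n a]?) :=
  (head? (drop hn hl)).congr fun a => by simp

@[fun_prop] theorem optionGetD {o : α → Option β} {d : α → β} (ho : PT o) (hd : PT d) :
    PT (fun a => (o a).getD (d a)) :=
  (headD (toList.comp ho) hd).congr fun a => by cases o a <;> rfl

@[fun_prop] theorem isSome {o : α → Option β} (ho : PT o) : PT (fun a => (o a).isSome) :=
  (isEmpty (toList.comp ho)).not.congr fun a => by cases o a <;> rfl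

/-! ### Equality -/

theorem bits_eq : PT (fun p : List Bool × List Bool => decide (p.1 = p.2)) := by
  refine (and (and (decide_le (f := fun p : List Bool × List Bool => p.1.length)
    (g := fun p => p.2.length) (by fun_prop) (by fun_prop))
    (decide_le (f := fun p : List Bool × List Bool => p.2.length)
    (g := fun p => p.1.length) (by fun_prop) (by fun_prop)))
    (all (f := fun p i => !(Bool.xor (p.1.getD i false) (p.2.getD i false)))
      (l := fun p => List.range p.1.length) (by fun_prop) (by fun_prop))).congr ?_
  rintro ⟨a, b⟩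
  rw [Bool.eq_iff_iff]
  simp only [Bool.and_eq_true, decide_eq_true_eq, List.all_eq_true, List.mem_range]
  constructor
  · rintro ⟨⟨h1, h2⟩, h3⟩
    apply List.ext_getElem (by omega)
    intro i hi hi'
    have := h3 i hi
    simpa [hi, hi'] using this
  · rintro rfl; simp

@[fun_prop] theorem decide_eq {f g : α → β} [∀ a, Decidable (f a = g a)] (hf : PT f) (hg : PT g) :
    PT (fun a => decide (f a = g a)) :=
  (bits_eq.comp (hf.enc'.mk hg.enc')).congr fun a => by
    rw [Bool.eq_iff_iff]; simp [Enc.inj.eq_iff]

@[fun_prop] theorem beq [BEq β] [LawfulBEq β] {f g : α → β} (hf : PT f) (hg : PT g) :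
    PT (fun a => f a == g a) := by
  classical
  exact (decide_eq hf hg).congr fun a => by rw [Bool.eq_iff_iff]; simp

@[fun_prop] theorem bne [BEq β] [LawfulBEq β] {f g : α → β} (hf : PT f) (hg : PT g) :
    PT (fun a => f a != g a) := (beq hf hg).not

@[fun_prop] theorem decide_ne {f g : α → β} [∀ a, Decidable (f a ≠ g a)] (hf : PT f) (hg : PT g) :
    PT (fun a => decide (f a ≠ g a)) := by
  classical
  exact (decide_eq hf hg).not.congr fun a => by rw [Bool.eq_iff_iff]; simp

@[fun_prop] theorem decide_mem {f : α → β} {l : α → List β} [∀ a, Decidable (f a ∈ l a)]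
    (hf : PT f) (hl : PT l) : PT (fun a => decide (f a ∈ l a)) := by
  classical
  exact (any (f := fun a b => decide (f a = b)) (by fun_prop) hl).congr fun a => by
    rw [Bool.eq_iff_iff]; simp

@[fun_prop] theorem contains [BEq β] [LawfulBEq β] {f : α → β} {l : α → List β}
    (hf : PT f) (hl : PT l) : PT (fun a => (l a).contains (f a)) := by
  classical
  exact (decide_mem hf hl).congr fun a => by rw [Bool.eq_iff_iff]; simp

/-! ### Propositional connectives -/

theorem decide_and {p q : α → Prop} [DecidablePred p] [DecidablePred q] [∀ a, Decidable (p a ∧ q a)]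
    (hp : PT (fun a => decide (p a))) (hq : PT (fun a => decide (q a))) :
    PT (fun a => decide (p a ∧ q a)) :=
  (and hp hq).congr fun a => by rw [Bool.eq_iff_iff]; simp

theorem decide_or {p q : α → Prop} [DecidablePred p] [DecidablePred q] [∀ a, Decidable (p a ∨ q a)]
    (hp : PT (fun a => decide (p a))) (hq : PT (fun a => decide (q a))) :
    PT (fun a => decide (p a ∨ q a)) :=
  (or hp hq).congr fun a => by rw [Bool.eq_iff_iff]; simp

@[fun_prop] theorem decide_true {f : α → Bool} [∀ a, Decidable (f a = true)] (hf : PT f) :
    PT (fun a => decide (f a = true)) :=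
  hf.congr fun a => by rw [Bool.eq_iff_iff]; simp

/-! ### Binary output -/

theorem encodeNat_step (n : ℕ) (hn : n ≠ 0) :
    Computability.encodeNat n = decide (n % 2 = 1) :: Computability.encodeNat (n / 2) := by
  have key : ∀ (b : Bool) (m : ℕ), Nat.bit b m ≠ 0 →
      Computability.encodeNat (Nat.bit b m) = b :: Computability.encodeNat m := by
    intro b m h
    unfold Computability.encodeNat
    rw [← Num.ofNat'_eq, ← Num.ofNat'_eq, Num.ofNat'_bit]
    rcases hm : Num.ofNat' m with _ | p
    · have : m = 0 := by
        have := congrArg (fun x : Num => (x : ℕ)) hm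
        simpa [Num.ofNat'_eq] using this
      subst this
      cases b
      · exact absurd rfl h
      · rfl
    · cases b <;> rfl
  have h1 : n = Nat.bit (decide (n % 2 = 1)) (n / 2) := by
    rcases Nat.mod_two_eq_zero_or_one n with h | h <;> simp [Nat.bit, h] <;> omega
  conv_lhs => rw [h1]
  exact key _ _ (h1 ▸ hn)

/-- One step of the conversion to binary. -/
def binStep (p : ℕ × List Bool) : ℕ × List Bool :=
  if p.1 = 0 then p else (p.1 / 2, p.2 ++ [decide (p.1 % 2 = 1)])

theorem binStep_iter (n i : ℕ) : (binStep^[i] (n, [])).1 ≤ n - i ∧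
    (binStep^[i] (n, [])).2.length ≤ i ∧
    (binStep^[i] (n, [])).2 ++ Computability.encodeNat (binStep^[i] (n, [])).1 =
      Computability.encodeNat n := by
  induction i with
  | zero => simp
  | succ i ih =>
    rw [iterate_succ_apply']
    obtain ⟨h1, h2, h3⟩ := ih
    generalize binStep^[i] (n, []) = p at h1 h2 h3
    unfold binStep
    split_ifs with h
    · exact ⟨by omega, by omega, h3⟩
    · refine ⟨by simp only; omega, by simp; omega, ?_⟩
      rw [← h3, encodeNat_step _ h]; simp

theorem sz_bits (l : List Bool) : sz l = 3 * l.length := by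
  induction l with
  | nil => rfl
  | cons b t ih => simp [ih]; omega

@[fun_prop] theorem encodeNat {f : α → ℕ} (hf : PT f) :
    PT (fun a => Computability.encodeNat (f a)) := by
  obtain ⟨r, hr⟩ := hf.size
  have hg : PT binStep := by unfold binStep; fun_prop
  refine (iterate (s0 := fun a => (f a, [])) hg hf (by fun_prop) (5 * r + 1)
    fun a i hi => ?_).snd.congr fun a => ?_
  · obtain ⟨h1, h2, -⟩ := binStep_iter (f a) i
    have h3 := hr a
    generalize binStep^[i] (f a, []) = p at h1 h2
    rcases p with ⟨m, l⟩
    simp [sz_bits] at h1 h2 h3 ⊢; omega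
  · obtain ⟨h1, -, h3⟩ := binStep_iter (f a) (f a)
    rw [← h3, show (binStep^[f a] (f a, [])).1 = 0 by omega]
    exact (List.append_nil _).symm

@[fun_prop] theorem delimit' {f : α → List Bool} (hf : PT f) : PT (fun a => delimit (f a)) :=
  (append (flatMap (f := fun _ b => [true, b]) (by fun_prop) hf) (const [false])).congr fun a => by
    induction f a with
    | nil => rfl
    | cons b t ih => simp [delimit, ← ih]

end PT

end Pool.Agent.Lib.NP
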