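import Mathlib

/-! A tiny structured language acting on finitely many stacks of bits, with a cost semantics,
and its compilation into Mathlib's `Turing.FinTM2`. -/

namespace Pool.Agent.Lib.NP

open Function Turing

inductive Prog : Type
  | skip : Prog
  | push : ℕ → Bool → Prog
  | seq : Prog → Prog → Prog
  | case : ℕ → Prog → Prog → Prog → Prog
  | loop : ℕ → Prog → Prog

abbrev St := ℕ → List Bool

/-- `Eval p s t s'`: started in `s`, the program `p` stops in `s'` at cost at most `t`. -/
inductive Eval : Prog → St → ℕ → St → Prop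
  | skip (s : St) : Eval .skip s 0 s
  | push (k : ℕ) (b : Bool) (s : St) : Eval (.push k b) s 1 (update s k (b :: s k))
  | seq {p q : Prog} {s s' s'' : St} {t t' : ℕ} :
      Eval p s t s' → Eval q s' t' s'' → Eval (.seq p q) s (t + t') s''
  | caseE {k : ℕ} {a b c : Prog} {s s' : St} {t : ℕ} :
      s k = [] → Eval a s t s' → Eval (.case k a b c) s t s'
  | caseF {k : ℕ} {a b c : Prog} {s s' : St} {t : ℕ} {l : List Bool} :
      s k = false :: l → Eval b (update s k l) t s' → Eval (.case k a b c) s t s'
  | caseT {k : ℕ} {a b c : Prog} {s s' : St} {t : ℕ} {l : List Bool} :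
      s k = true :: l → Eval c (update s k l) t s' → Eval (.case k a b c) s t s'
  | loopE {k : ℕ} {p : Prog} {s : St} : s k = [] → Eval (.loop k p) s 1 s
  | loopS {k : ℕ} {p : Prog} {s s' s'' : St} {t t' : ℕ} :
      s k ≠ [] → Eval p s t s' → Eval (.loop k p) s' t' s'' → Eval (.loop k p) s (t + t' + 1) s''
  | mono {p : Prog} {s s' : St} {t t' : ℕ} : Eval p s t s' → t ≤ t' → Eval p s t' s'

theorem Eval.length_le {p : Prog} {s s' : St} {t : ℕ} (h : Eval p s t s') (k : ℕ) :
    (s' k).length ≤ (s k).length + t := by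
  induction h with
  | skip s => simp
  | push j b s =>
    by_cases hk : k = j
    · subst hk; simp
    · simp [update_of_ne hk]
  | seq _ _ ih1 ih2 => omega
  | caseE _ _ ih => exact ih
  | @caseF j a b c s s' t l h _ ih =>
    by_cases hk : k = j
    · subst hk; simp [h] at ih ⊢; omega
    · simpa [update_of_ne hk] using ih
  | @caseT j a b c s s' t l h _ ih =>
    by_cases hk : k = j
    · subst hk; simp [h] at ih ⊢; omega
    · simpa [update_of_ne hk] using ih
  | loopE _ => omega
  | loopS _ _ _ ih1 ih2 => omega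
  | mono _ _ ih => omega

/-- Renaming of registers. -/
def Prog.ren (ρ : ℕ → ℕ) : Prog → Prog
  | .skip => .skip
  | .push k b => .push (ρ k) b
  | .seq p q => .seq (p.ren ρ) (q.ren ρ)
  | .case k a b c => .case (ρ k) (a.ren ρ) (b.ren ρ) (c.ren ρ)
  | .loop k p => .loop (ρ k) (p.ren ρ)

theorem Eval.ren {ρ : ℕ → ℕ} (F : St → St) (hF : ∀ s k, F s (ρ k) = s k)
    (hU : ∀ s k l, F (update s k l) = update (F s) (ρ k) l)
    {p : Prog} {s s' : St} {t : ℕ} (h : Eval p s t s') : Eval (p.ren ρ) (F s) t (F s') := by
  induction h with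
  | skip s => exact .skip _
  | push j b s => rw [hU, ← hF s j]; exact .push _ _ _
  | seq _ _ ih1 ih2 => exact .seq ih1 ih2
  | caseE h _ ih => exact .caseE (by rw [hF, h]) ih
  | caseF h _ ih => exact .caseF (by rw [hF, h]) (by rw [← hU]; exact ih)
  | caseT h _ ih => exact .caseT (by rw [hF, h]) (by rw [← hU]; exact ih)
  | loopE h => exact .loopE (by rw [hF, h])
  | loopS h _ _ ih1 ih2 => exact .loopS (by rw [hF]; exact h) ih1 ih2
  | mono _ h ih => exact .mono ih h

/-! ### Compilation -/

/-- The largest register used. -/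
def Prog.bd : Prog → ℕ
  | .skip => 0
  | .push k _ => k
  | .seq p q => max p.bd q.bd
  | .case k a b c => max k (max a.bd (max b.bd c.bd))
  | .loop k p => max k p.bd

/-- Labels of loop heads. -/
def Prog.Pos : Prog → Type
  | .skip => Empty
  | .push _ _ => Empty
  | .seq p q => p.Pos ⊕ q.Pos
  | .case _ a b c => a.Pos ⊕ b.Pos ⊕ c.Pos
  | .loop _ p => Option p.Pos

theorem Prog.finite_pos : ∀ p : Prog, Finite p.Pos
  | .skip => inferInstanceAs (Finite Empty)
  | .push _ _ => inferInstanceAs (Finite Empty)
  | .seq p q => by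
    have := p.finite_pos; have := q.finite_pos
    exact inferInstanceAs (Finite (p.Pos ⊕ q.Pos))
  | .case _ a b c => by
    have := a.finite_pos; have := b.finite_pos; have := c.finite_pos
    exact inferInstanceAs (Finite (a.Pos ⊕ b.Pos ⊕ c.Pos))
  | .loop _ p => by
    have := p.finite_pos
    exact inferInstanceAs (Finite (Option p.Pos))

abbrev Stm (N : ℕ) (Λ : Type) := TM2.Stmt (fun _ : Fin (N + 1) => Bool) Λ (Option Bool)

def reg (N : ℕ) (k : ℕ) : Fin (N + 1) := if h : k < N + 1 then ⟨k, h⟩ else 0

def tr {N : ℕ} {Λ : Type} : (p : Prog) → (p.Pos → Λ) → Stm N Λ → Stm N Λ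
  | .skip, _, k => k
  | .push r b, _, k => .push (reg N r) (fun _ => b) k
  | .seq p q, lab, k => tr p (fun x => lab (.inl x)) (tr q (fun x => lab (.inr x)) k)
  | .case r a b c, lab, k =>
      .pop (reg N r) (fun _ o => o)
        (.branch (fun v => v.isNone) (tr a (fun x => lab (.inl x)) k)
          (.branch (fun v => v.getD false) (tr c (fun x => lab (.inr (.inr x))) k)
            (tr b (fun x => lab (.inr (.inl x))) k)))
  | .loop _ _, lab, _ => .goto (fun _ => lab none)

def body {N : ℕ} {Λ : Type} : (p : Prog) → (p.Pos → Λ) → Stm N Λ → p.Pos → Stm N Λ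
  | .skip, _, k, _ => k
  | .push _ _, _, k, _ => k
  | .seq p q, lab, k, .inl x => body p (fun x => lab (.inl x)) (tr q (fun x => lab (.inr x)) k) x
  | .seq _ q, lab, k, .inr x => body q (fun x => lab (.inr x)) k x
  | .case _ a _ _, lab, k, .inl x => body a (fun x => lab (.inl x)) k x
  | .case _ _ b _, lab, k, .inr (.inl x) => body b (fun x => lab (.inr (.inl x))) k x
  | .case _ _ _ c, lab, k, .inr (.inr x) => body c (fun x => lab (.inr (.inr x))) k x
  | .loop r p, lab, k, none =>
      .peek (reg N r) (fun _ o => o)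
        (.branch (fun v => v.isNone) k (tr p (fun x => lab (some x)) (.goto fun _ => lab none)))
  | .loop _ p, lab, _, some x => body p (fun x => lab (some x)) (.goto fun _ => lab none) x

/-- Restriction of a state to the registers `0, ..., N`. -/
def res (N : ℕ) (s : St) : Fin (N + 1) → List Bool := fun i => s i

theorem res_reg {N k : ℕ} (h : k ≤ N) (s : St) : res N s (reg N k) = s k := by
  simp [res, reg, Nat.lt_succ_of_le h]

theorem res_update {N k : ℕ} (h : k ≤ N) (s : St) (l : List Bool) :
    res N (update s k l) = update (res N s) (reg N k) l := by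
  funext i
  by_cases hi : (i : ℕ) = k
  · have : i = reg N k := by
      apply Fin.ext; simp [reg, Nat.lt_succ_of_le h, hi]
    subst this
    simp [res, hi]
  · have : i ≠ reg N k := by
      intro h'; apply hi; rw [h']; simp [reg, Nat.lt_succ_of_le h]
    simp [res, update_of_ne hi, update_of_ne this]

theorem sim {N : ℕ} {Λ : Type} (M : Λ → Stm N Λ) {p : Prog} {s s' : St} {t : ℕ}
    (h : Eval p s t s') : p.bd ≤ N → ∀ (lab : p.Pos → Λ) (k : Stm N Λ),
      (∀ x, M (lab x) = body p lab k x) → ∀ v : Option Bool, ∃ n ≤ t, ∃ v' : Option Bool,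
        (flip bind (TM2.step M))^[n] (some (TM2.stepAux (tr p lab k) v (res N s))) =
          some (TM2.stepAux k v' (res N s')) := by
  induction h with
  | skip s => intro _ lab k _ v; exact ⟨0, le_rfl, v, rfl⟩
  | push j b s =>
    intro hb lab k _ v
    refine ⟨0, by omega, v, ?_⟩
    have hb' : j ≤ N := hb
    simp [tr, res_update hb', res_reg hb']
  | @seq p q s s' s'' t t' _ _ ih1 ih2 =>
    intro hb lab k hM v
    have hb' : max p.bd q.bd ≤ N := hb
    obtain ⟨n1, hn1, v1, e1⟩ := ih1 (by omega) (fun x => lab (.inl x))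
      (tr q (fun x => lab (.inr x)) k) (fun x => hM (.inl x)) v
    obtain ⟨n2, hn2, v2, e2⟩ := ih2 (by omega) (fun x => lab (.inr x)) k (fun x => hM (.inr x)) v1
    refine ⟨n2 + n1, by omega, v2, ?_⟩
    rw [iterate_add_apply]
    exact (congrArg _ e1).trans e2
  | @caseE j a b c s s' t h _ ih =>
    intro hb lab k hM v
    have hb' : max j (max a.bd (max b.bd c.bd)) ≤ N := hb
    have hj : j ≤ N := by omega
    obtain ⟨n1, hn1, v1, e1⟩ := ih (by omega) (fun x => lab (.inl x)) k (fun x => hM (.inl x)) none
    refine ⟨n1, hn1, v1, ?_⟩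
    rw [← e1]
    have : update (res N s) (reg N j) [] = res N s := by
      rw [← res_update hj, ← h, update_eq_self]
    simp [tr, res_reg hj, h, this]
  | @caseF j a b c s s' t l h _ ih =>
    intro hb lab k hM v
    have hb' : max j (max a.bd (max b.bd c.bd)) ≤ N := hb
    have hj : j ≤ N := by omega
    obtain ⟨n1, hn1, v1, e1⟩ := ih (by omega) (fun x => lab (.inr (.inl x))) k
      (fun x => hM (.inr (.inl x))) (some false)
    refine ⟨n1, hn1, v1, ?_⟩
    rw [← e1]
    simp [tr, res_reg hj, h, res_update hj]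
  | @caseT j a b c s s' t l h _ ih =>
    intro hb lab k hM v
    have hb' : max j (max a.bd (max b.bd c.bd)) ≤ N := hb
    have hj : j ≤ N := by omega
    obtain ⟨n1, hn1, v1, e1⟩ := ih (by omega) (fun x => lab (.inr (.inr x))) k
      (fun x => hM (.inr (.inr x))) (some true)
    refine ⟨n1, hn1, v1, ?_⟩
    rw [← e1]
    simp [tr, res_reg hj, h, res_update hj]
  | @loopE j p s h =>
    intro hb lab k hM v
    have hb' : max j p.bd ≤ N := hb
    have hj : j ≤ N := by omega
    refine ⟨1, le_rfl, none, ?_⟩
    simp [tr, flip, hM none, body, res_reg hj, h]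
  | @loopS j p s s' s'' t t' h _ _ ih1 ih2 =>
    intro hb lab k hM v
    have hb' : max j p.bd ≤ N := hb
    have hj : j ≤ N := by omega
    obtain ⟨n1, hn1, v1, e1⟩ := ih1 (by omega) (fun x => lab (some x)) (.goto fun _ => lab none)
      (fun x => hM (some x)) (s j).head?
    obtain ⟨n2, hn2, v2, e2⟩ := ih2 hb lab k hM v1
    refine ⟨n2 + n1 + 1, by omega, v2, ?_⟩
    rw [iterate_add_apply, iterate_add_apply, ← e2]
    congr 1
    refine Eq.trans ?_ e1
    congr 1
    obtain ⟨b, l, hl⟩ := List.exists_cons_of_ne_nil h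
    simp [tr, flip, hM none, body, res_reg hj, hl]
  | mono _ h ih =>
    intro hb lab k hM v
    obtain ⟨n1, hn1, v1, e1⟩ := ih hb lab k hM v
    exact ⟨n1, by omega, v1, e1⟩

/-- A register followed by the other registers. -/
def sc (a : List Bool) (S : St) : St
  | 0 => a
  | n + 1 => S n

/-- All registers empty. -/
def emp : St := fun _ => []

/-- The machine compiled from a program. -/
noncomputable def machine (p : Prog) : FinTM2 :=
  haveI := p.finite_pos
  { K := Fin (p.bd + 1)
    k₀ := 0
    k₁ := 0
    Γ := fun _ => Bool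
    Λ := Option p.Pos
    main := none
    ΛFin := Fintype.ofFinite _
    σ := Option Bool
    initialState := none
    m := fun l => match l with
      | none => tr p some (.load (fun _ => none) .halt)
      | some x => body p some (.load (fun _ => none) .halt) x }

theorem res_sc_emp (N : ℕ) (x : List Bool) (i : Fin (N + 1)) :
    res N (sc x emp) i = if i = 0 then x else [] := by
  rcases i with ⟨_ | i, hi⟩
  · simp [res, sc]
  · simp [res, sc, emp, Fin.ext_iff]

theorem machine_outputs {p : Prog} {x y : List Bool} {t : ℕ}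
    (h : Eval p (sc x emp) t (sc y emp)) :
    Nonempty (TM2OutputsInTime (machine p) x (some y) (t + 1)) := by
  obtain ⟨n, hn, v', e⟩ := sim (N := p.bd) (machine p).m h le_rfl some
    (.load (fun _ => none) .halt) (fun x => rfl) none
  have hi : initList (machine p) x = ⟨some none, none, res p.bd (sc x emp)⟩ := by
    unfold initList
    congr 1
    funext i
    rw [res_sc_emp]
    by_cases hi : i = (0 : Fin (p.bd + 1))
    · subst hi; rfl
    · exact (dif_neg hi).trans (if_neg hi).symm
  have ho : haltList (machine p) y = ⟨none, none, res p.bd (sc y emp)⟩ := by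
    unfold haltList
    congr 1
    funext i
    rw [res_sc_emp]
    by_cases hi : i = (0 : Fin (p.bd + 1))
    · subst hi; rfl
    · exact (dif_neg hi).trans (if_neg hi).symm
  refine ⟨⟨⟨n + 1, ?_⟩, by simpa using hn⟩⟩
  rw [iterate_succ_apply, hi, Option.map_some, ho]
  exact e

end Pool.Agent.Lib.NP
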