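import Pool.Agent.Lib.NP.Prog
import Pool.Prelude.Def_H_3587d628

/-! Polynomial-time computations on raw bit strings. -/

namespace Pool.Agent.Lib.NP

open Function Turing N487b59b3

@[simp] theorem sc_zero (a : List Bool) (S : St) : sc a S 0 = a := rfl
@[simp] theorem sc_succ (a : List Bool) (S : St) (n : ℕ) : sc a S (n + 1) = S n := rfl
@[simp] theorem sc_one (a : List Bool) (S : St) : sc a S 1 = S 0 := rfl
@[simp] theorem sc_two (a : List Bool) (S : St) : sc a S 2 = S 1 := rfl

@[simp] theorem update_sc_zero (a x : List Bool) (S : St) : update (sc a S) 0 x = sc x S := by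
  funext i; rcases i with _ | i <;> simp [sc]

@[simp] theorem update_sc_succ (a x : List Bool) (S : St) (n : ℕ) :
    update (sc a S) (n + 1) x = sc a (update S n x) := by
  funext i
  rcases i with _ | i
  · simp [sc]
  · by_cases h : i = n
    · subst h; simp [sc]
    · rw [update_of_ne (by omega)]; simp [sc, update_of_ne h]

@[simp] theorem update_sc_one (a x : List Bool) (S : St) :
    update (sc a S) 1 x = sc a (update S 0 x) := update_sc_succ a x S 0

@[simp] theorem update_sc_two (a x : List Bool) (S : St) :
    update (sc a S) 2 x = sc a (update S 1 x) := update_sc_succ a x S 1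

theorem sc_emp : sc [] emp = emp := by
  funext i; rcases i with _ | i <;> rfl

/-- Three visible registers, all others empty. -/
def s3 (a b c : List Bool) : St := sc a (sc b (sc c emp))

@[simp] theorem s3_0 (a b c : List Bool) : s3 a b c 0 = a := rfl
@[simp] theorem s3_1 (a b c : List Bool) : s3 a b c 1 = b := rfl
@[simp] theorem s3_2 (a b c : List Bool) : s3 a b c 2 = c := rfl
@[simp] theorem s3_u0 (a b c x : List Bool) : update (s3 a b c) 0 x = s3 x b c := by simp [s3]
@[simp] theorem s3_u1 (a b c x : List Bool) : update (s3 a b c) 1 x = s3 a x c := by simp [s3]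
@[simp] theorem s3_u2 (a b c x : List Bool) : update (s3 a b c) 2 x = s3 a b x := by simp [s3]

theorem s3_nil (a : List Bool) : s3 a [] [] = sc a emp := by simp [s3, sc_emp]

theorem Eval.cast {p : Prog} {s s' u u' : St} {t t' : ℕ} (h : Eval p s t s') (h1 : s = u)
    (h2 : s' = u') (h3 : t ≤ t') : Eval p u t' u' := h1 ▸ h2 ▸ h.mono h3

/-- Run `p` on register 1 and the registers above it. -/
theorem Eval.on1 {p : Prog} {x y : List Bool} {t : ℕ} (h : Eval p (sc x emp) t (sc y emp))
    (a : List Bool) : Eval (p.ren (· + 1)) (s3 a x []) t (s3 a y []) := by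
  have := h.ren (ρ := (· + 1)) (sc a) (fun _ _ => rfl) (fun s k l => (update_sc_succ a l s k).symm)
  simpa [s3, sc_emp] using this

def skip1 : ℕ → ℕ
  | 0 => 0
  | n + 1 => n + 2

/-- Run `p` on register 0 and the registers above register 1. -/
theorem Eval.on0 {p : Prog} {x y : List Bool} {t : ℕ} (h : Eval p (sc x emp) t (sc y emp))
    (a : List Bool) : Eval (p.ren skip1) (s3 x a []) t (s3 y a []) := by
  have := h.ren (ρ := skip1) (fun s => sc (s 0) (sc a (fun n => s (n + 1))))
    (fun s k => by rcases k with _ | k <;> rfl)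
    (fun s k l => by
      rcases k with _ | k
      · simp [skip1]
      · have : (fun n => update s (k + 1) l (n + 1)) = update (fun n => s (n + 1)) k l := by
          funext n
          by_cases hn : n = k
          · subst hn; simp
          · rw [update_of_ne (by omega), update_of_ne hn]
        simp [skip1, this])
  have e : (fun n : ℕ => sc x emp (n + 1)) = sc [] emp := by rw [sc_emp]; rfl
  have e' : (fun n : ℕ => sc y emp (n + 1)) = sc [] emp := by rw [sc_emp]; rfl
  simpa only [sc_zero, e, e', s3] using this

/-- Pop the bits of register `i` one by one, running `pf` or `pt` on each. -/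
def foreach (i : ℕ) (pf pt : Prog) : Prog := .loop i (.case i .skip pf pt)

/-- A loop whose body transforms the rest of the state according to the popped bit. -/
theorem foreach_fold {σ : Type} {i c : ℕ} {pf pt : Prog} (F : List Bool → σ → St)
    (g : σ → Bool → σ) (hF : ∀ l a, F l a i = l) (hU : ∀ l l' a, update (F l a) i l' = F l' a)
    (hf : ∀ l a, Eval pf (F l a) c (F l (g a false)))
    (ht : ∀ l a, Eval pt (F l a) c (F l (g a true))) (l : List Bool) (a : σ) :
    Eval (foreach i pf pt) (F l a) ((c + 1) * l.length + 1) (F [] (l.foldl g a)) := by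
  induction l generalizing a with
  | nil => exact (Eval.loopE (hF [] a)).mono (by simp)
  | cons b l ih =>
    cases b
    · refine (Eval.loopS (by simp [hF]) (Eval.caseF (hF _ _) (hU _ _ _ ▸ hf l a)) (ih _)).mono ?_
      simp [Nat.mul_add]; omega
    · refine (Eval.loopS (by simp [hF]) (Eval.caseT (hF _ _) (hU _ _ _ ▸ ht l a)) (ih _)).mono ?_
      simp [Nat.mul_add]; omega

theorem foldl_cons_eq (l a : List Bool) :
    l.foldl (fun a b => b :: a) a = l.reverse ++ a := by
  induction l generalizing a with
  | nil => rfl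
  | cons b l ih => simp [ih]

def mv (i j : ℕ) : Prog := foreach i (.push j false) (.push j true)

theorem mv01 (a b c : List Bool) :
    Eval (mv 0 1) (s3 a b c) (2 * a.length + 1) (s3 [] (a.reverse ++ b) c) := by
  rw [← foldl_cons_eq]
  exact foreach_fold (fun l x => s3 l x c) (fun a b => b :: a) (by simp) (by simp)
    (fun l a => by simpa using Eval.push 1 false (s3 l a c))
    (fun l a => by simpa using Eval.push 1 true (s3 l a c)) a b

theorem mv02 (a b c : List Bool) :
    Eval (mv 0 2) (s3 a b c) (2 * a.length + 1) (s3 [] b (a.reverse ++ c)) := by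
  rw [← foldl_cons_eq]
  exact foreach_fold (fun l x => s3 l b x) (fun a b => b :: a) (by simp) (by simp)
    (fun l a => by simpa using Eval.push 2 false (s3 l b a))
    (fun l a => by simpa using Eval.push 2 true (s3 l b a)) a c

theorem mv10 (a b c : List Bool) :
    Eval (mv 1 0) (s3 a b c) (2 * b.length + 1) (s3 (b.reverse ++ a) [] c) := by
  rw [← foldl_cons_eq]
  exact foreach_fold (fun l x => s3 x l c) (fun a b => b :: a) (by simp) (by simp)
    (fun l a => by simpa using Eval.push 0 false (s3 a l c))
    (fun l a => by simpa using Eval.push 0 true (s3 a l c)) b a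

theorem mv12 (a b c : List Bool) :
    Eval (mv 1 2) (s3 a b c) (2 * b.length + 1) (s3 a [] (b.reverse ++ c)) := by
  rw [← foldl_cons_eq]
  exact foreach_fold (fun l x => s3 a l x) (fun a b => b :: a) (by simp) (by simp)
    (fun l x => by simpa using Eval.push 2 false (s3 a l x))
    (fun l x => by simpa using Eval.push 2 true (s3 a l x)) b c

def clr (i : ℕ) : Prog := foreach i .skip .skip

theorem clr0 (a b c : List Bool) : Eval (clr 0) (s3 a b c) (a.length + 1) (s3 [] b c) := by
  simpa [clr] using foreach_fold (c := 0) (fun l (_ : Unit) => s3 l b c) (fun _ _ => ()) (by simp)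
    (by simp) (fun l a => Eval.skip _) (fun l a => Eval.skip _) a ()

theorem clr1 (a b c : List Bool) : Eval (clr 1) (s3 a b c) (b.length + 1) (s3 a [] c) := by
  simpa [clr] using foreach_fold (c := 0) (fun l (_ : Unit) => s3 a l c) (fun _ _ => ()) (by simp)
    (by simp) (fun l a => Eval.skip _) (fun l a => Eval.skip _) b ()

def pushes : List Bool → Prog
  | [] => .skip
  | b :: l => .seq (pushes l) (.push 0 b)

theorem pushes_eval (l a b c : List Bool) :
    Eval (pushes l) (s3 a b c) l.length (s3 (l ++ a) b c) := by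
  induction l with
  | nil => exact .skip _
  | cons x l ih => simpa [pushes] using Eval.seq ih (Eval.push 0 x _)

def dup : Prog :=
  .seq (mv 0 2) (foreach 2 (.seq (.push 0 false) (.push 1 false)) (.seq (.push 0 true) (.push 1 true)))

theorem dup_eval (a : List Bool) : Eval dup (s3 a [] []) (5 * a.length + 2) (s3 a a []) := by
  have h := foreach_fold (i := 2) (c := 1 + 1) (fun l x => s3 x x l) (fun a b => b :: a) (by simp)
    (by simp)
    (fun l x => by simpa using Eval.seq (Eval.push 0 false (s3 x x l)) (Eval.push 1 false _))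
    (fun l x => by simpa using Eval.seq (Eval.push 0 true (s3 x x l)) (Eval.push 1 true _))
    a.reverse []
  rw [foldl_cons_eq] at h
  refine (Eval.seq (mv02 a [] []) (h.cast (by simp) rfl le_rfl)).cast rfl (by simp) ?_
  simp; omega

theorem foldl_delimit (l a : List Bool) :
    l.reverse.foldl (fun a b => true :: b :: a) (false :: a) = delimit l ++ a := by
  induction l with
  | nil => rfl
  | cons b l ih => simp [delimit, List.foldl_append, ← ih]

def mkPair : Prog :=
  .seq (mv 1 2) (.seq (.push 0 false)
    (foreach 2 (.seq (.push 0 false) (.push 0 true)) (.seq (.push 0 true) (.push 0 true))))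

theorem mkPair_eval (a b : List Bool) :
    Eval mkPair (s3 b a []) (5 * a.length + 3) (s3 (delimit a ++ b) [] []) := by
  have h := foreach_fold (i := 2) (c := 1 + 1) (fun l x => s3 x [] l) (fun a b => true :: b :: a)
    (by simp) (by simp)
    (fun l x => by simpa using Eval.seq (Eval.push 0 false (s3 x [] l)) (Eval.push 0 true _))
    (fun l x => by simpa using Eval.seq (Eval.push 0 true (s3 x [] l)) (Eval.push 0 true _))
    a.reverse (false :: b)
  rw [foldl_delimit] at h
  refine (Eval.seq (mv12 b a []) (Eval.seq (Eval.push 0 false _)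
    (h.cast (by simp) rfl le_rfl))).cast rfl rfl ?_
  simp; omega

def pop (i : ℕ) : Prog := .case i .skip .skip .skip

def splitBody : Prog :=
  .case 0 (pop 2) (pop 2) (.case 0 .skip (.push 1 false) (.push 1 true))

theorem splitLoop_eval (a b r : List Bool) :
    Eval (.loop 2 splitBody) (s3 (delimit a ++ b) r [true]) (2 * a.length + 2)
      (s3 b (a.reverse ++ r) []) := by
  induction a generalizing r with
  | nil =>
    refine (Eval.loopS (t := 0) (by simp) (Eval.caseF (l := b) (by simp [delimit])
      (Eval.caseT (l := []) (by simp) (Eval.skip _))) (Eval.loopE (by simp))).cast rfl (by simp)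
      (by simp)
  | cons x a ih =>
    cases x
    · refine (Eval.loopS (by simp) (Eval.caseT (l := false :: (delimit a ++ b)) (by simp [delimit])
        (Eval.caseF (l := delimit a ++ b) (by simp) (Eval.push 1 false _)))
        ((ih (false :: r)).cast (by simp) rfl le_rfl)).cast rfl (by simp) ?_
      simp; omega
    · refine (Eval.loopS (by simp) (Eval.caseT (l := true :: (delimit a ++ b)) (by simp [delimit])
        (Eval.caseT (l := delimit a ++ b) (by simp) (Eval.push 1 true _)))
        ((ih (true :: r)).cast (by simp) rfl le_rfl)).cast rfl (by simp) ?_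
      simp; omega

def split : Prog := .seq (.push 2 true) (.loop 2 splitBody)

theorem split_eval (a b : List Bool) :
    Eval split (s3 (delimit a ++ b) [] []) (2 * a.length + 3) (s3 b a.reverse []) := by
  refine (Eval.seq (Eval.push 2 true _) ((splitLoop_eval a b []).cast (by simp) rfl le_rfl)).cast
    rfl (by simp) ?_
  omega

theorem eval_mono (q : Polynomial ℕ) {a b : ℕ} (h : a ≤ b) : q.eval a ≤ q.eval b := by
  induction q using Polynomial.induction_on' with
  | add p q hp hq => simp only [Polynomial.eval_add]; omega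
  | monomial n c =>
    simp only [Polynomial.eval_monomial]
    exact Nat.mul_le_mul_left _ (Nat.pow_le_pow_left h n)

/-- `PTe ea eb`: one program maps the string `ea a` to the string `eb a` for every index `a`,
at a cost polynomial in the length of `ea a`. -/
def PTe {α : Type} (ea eb : α → List Bool) : Prop :=
  ∃ (p : Prog) (q : Polynomial ℕ), ∀ a, Eval p (s3 (ea a) [] []) (q.eval (ea a).length) (s3 (eb a) [] [])

namespace PTe

open Polynomial

variable {α : Type} {ea eb ec : α → List Bool}

theorem toTM2 {β : Type} {f : α → β} {e : β → List Bool} (h : PTe ea (fun a => e (f a))) :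
    Nonempty (TM2ComputableInPolyTime ea e f) := by
  obtain ⟨p, q, h⟩ := h
  refine ⟨⟨⟨machine p, Equiv.refl _, Equiv.refl _⟩, q + 1, fun a => ?_⟩⟩
  have e1 : ea a = List.map (Equiv.refl Bool).invFun (ea a) := by simp
  have e2 : e (f a) = List.map (Equiv.refl Bool).invFun (e (f a)) := by simp
  have := (machine_outputs ((h a).cast ((s3_nil _).trans (congrArg (sc · emp) e1))
    ((s3_nil _).trans (congrArg (sc · emp) e2)) le_rfl)).some
  rw [eval_add, eval_one]
  exact this

theorem reindex {β : Type} {ea' eb' : β → List Bool} (h : PTe ea eb)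
    (H : ∀ b, ∃ a, ea a = ea' b ∧ eb a = eb' b) : PTe ea' eb' := by
  obtain ⟨p, q, h⟩ := h
  refine ⟨p, q, fun b => ?_⟩
  obtain ⟨a, h1, h2⟩ := H b
  rw [← h1, ← h2]; exact h a

theorem size (h : PTe ea eb) : ∃ q : Polynomial ℕ, ∀ a, (eb a).length ≤ q.eval (ea a).length := by
  obtain ⟨p, q, h⟩ := h
  exact ⟨X + q, fun a => by simpa using (h a).length_le 0⟩

theorem refl (ea : α → List Bool) : PTe ea ea :=
  ⟨.skip, 0, fun _ => by simpa using Eval.skip _⟩

theorem trans (h1 : PTe ea eb) (h2 : PTe eb ec) : PTe ea ec := by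
  obtain ⟨r, hr⟩ := h1.size
  obtain ⟨p1, q1, h1⟩ := h1
  obtain ⟨p2, q2, h2⟩ := h2
  refine ⟨.seq p1 p2, q1 + q2.comp r, fun a => (Eval.seq (h1 a) (h2 a)).mono ?_⟩
  simp only [eval_add, eval_comp]
  have := eval_mono q2 (hr a)
  omega

theorem const (ea : α → List Bool) (c : List Bool) : PTe ea (fun _ => c) := by
  refine ⟨.seq (clr 0) (pushes c), X + 1 + C c.length, fun a => ?_⟩
  simpa using Eval.seq (clr0 (ea a) [] []) (pushes_eval c [] [] [])

theorem pair (h1 : PTe ea eb) (h2 : PTe ea ec) : PTe ea (fun a => delimit (eb a) ++ ec a) := by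
  obtain ⟨r, hr⟩ := h1.size
  obtain ⟨p1, q1, h1⟩ := h1
  obtain ⟨p2, q2, h2⟩ := h2
  refine ⟨.seq dup (.seq (p1.ren (· + 1)) (.seq (p2.ren skip1) mkPair)),
    5 * X + 2 + q1 + q2 + 5 * r + 3, fun a => ?_⟩
  have e1 := ((h1 a).cast (s3_nil _) (s3_nil _) le_rfl).on1 (ea a)
  have e2 := ((h2 a).cast (s3_nil _) (s3_nil _) le_rfl).on0 (eb a)
  refine (Eval.seq (dup_eval _) (Eval.seq e1 (Eval.seq e2 (mkPair_eval _ _)))).mono ?_
  have := hr a
  simp; omega

theorem fst' : PTe (fun p : List Bool × List Bool => delimit p.1 ++ p.2) (fun p => p.1) := by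
  refine ⟨.seq split (.seq (clr 0) (mv 1 0)), 5 * X + 5, fun a => ?_⟩
  refine (Eval.seq (split_eval _ _) (Eval.seq (clr0 _ _ _) (mv10 _ _ _))).cast rfl (by simp) ?_
  simp; omega

theorem snd' : PTe (fun p : List Bool × List Bool => delimit p.1 ++ p.2) (fun p => p.2) := by
  refine ⟨.seq split (clr 1), 5 * X + 5, fun a => ?_⟩
  refine (Eval.seq (split_eval _ _) (clr1 _ _ _)).cast rfl (by simp) ?_
  simp; omega

theorem isEmpty' : PTe (fun x : List Bool => x) (fun x => [x.isEmpty]) := by
  refine ⟨.case 0 (.push 0 true) (.seq (clr 0) (.push 0 false)) (.seq (clr 0) (.push 0 false)),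
    X + 2, fun a => ?_⟩
  rcases a with _ | ⟨_ | _, l⟩
  · exact (Eval.caseE (by simp) (Eval.push 0 true _)).cast rfl (by simp) (by simp)
  · refine (Eval.caseF (l := l) (by simp) ((Eval.seq (clr0 l [] []) (Eval.push 0 false _)).cast
      (by simp) rfl le_rfl)).cast rfl (by simp) (by simp)
  · refine (Eval.caseT (l := l) (by simp) ((Eval.seq (clr0 l [] []) (Eval.push 0 false _)).cast
      (by simp) rfl le_rfl)).cast rfl (by simp) (by simp)

theorem foldl_explode (l : List Bool) :
    l.reverse.foldl (fun a b => true :: b :: false :: a) [] =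
      (l.map fun b => delimit [b]).flatten := by
  induction l with
  | nil => rfl
  | cons b l ih =>
    rw [List.reverse_cons, List.foldl_append, ih]
    simp [delimit]

theorem explode' : PTe (fun x : List Bool => x) (fun x => (x.map fun b => delimit [b]).flatten) := by
  refine ⟨.seq (mv 0 1) (foreach 1 (pushes [true, false, false]) (pushes [true, true, false])),
    6 * X + 2, fun a => ?_⟩
  have h := foreach_fold (i := 1) (c := 3) (fun l x => s3 x l []) (fun a b => true :: b :: false :: a)
    (by simp) (by simp) (fun l x => pushes_eval [true, false, false] x l [])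
    (fun l x => pushes_eval [true, true, false] x l []) a.reverse []
  rw [foldl_explode] at h
  refine (Eval.seq (mv01 a [] []) (h.cast (by simp) rfl le_rfl)).mono ?_
  simp; omega

theorem ite (c : α → Bool) (hc : PTe ea (fun a => [c a]))
    (h1 : PTe (fun a : {a // c a = true} => ea a) (fun a => eb a))
    (h2 : PTe (fun a : {a // c a = false} => ea a) (fun a => eb a)) : PTe ea eb := by
  refine (hc.pair (refl ea)).trans ?_
  obtain ⟨p1, q1, h1⟩ := h1
  obtain ⟨p2, q2, h2⟩ := h2
  refine ⟨.seq (pop 0) (.case 0 .skip (.seq (pop 0) p2) (.seq (pop 0) p1)), q1 + q2, fun a => ?_⟩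
  have m1 := eval_mono q1 (show (ea a).length ≤ (delimit [c a] ++ ea a).length by simp)
  have m2 := eval_mono q2 (show (ea a).length ≤ (delimit [c a] ++ ea a).length by simp)
  rcases h : c a with _ | _
  · have e := h2 ⟨a, h⟩
    refine (Eval.seq (t := 0) (Eval.caseT (l := false :: false :: ea a) (by simp [delimit, h])
      (Eval.skip _)) (Eval.caseF (l := false :: ea a) (by simp) (Eval.seq (t := 0)
        (Eval.caseF (l := ea a) (by simp) (Eval.skip _)) (e.cast (by simp) rfl le_rfl)))).mono ?_
    simp only [eval_add, h] at m1 m2 ⊢; omega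
  · have e := h1 ⟨a, h⟩
    refine (Eval.seq (t := 0) (Eval.caseT (l := true :: false :: ea a) (by simp [delimit, h])
      (Eval.skip _)) (Eval.caseT (l := false :: ea a) (by simp) (Eval.seq (t := 0)
        (Eval.caseF (l := ea a) (by simp) (Eval.skip _)) (e.cast (by simp) rfl le_rfl)))).mono ?_
    simp only [eval_add, h] at m1 m2 ⊢; omega

theorem iter_loop {σ : Type} {es : σ → List Bool} {g : σ → σ} {p : Prog} {q : Polynomial ℕ}
    (h : ∀ s, Eval p (s3 (es s) [] []) (q.eval (es s).length) (s3 (es (g s)) [] []))
    (B : ℕ) (l : List Bool) (s : σ) (hB : ∀ i ≤ l.length, (es (g^[i] s)).length ≤ B) :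
    Eval (foreach 1 (p.ren skip1) (p.ren skip1)) (s3 (es s) l []) ((q.eval B + 1) * l.length + 1)
      (s3 (es (g^[l.length] s)) [] []) := by
  induction l generalizing s with
  | nil => exact (Eval.loopE (by simp)).mono (by simp)
  | cons b l ih =>
    have ih := ih (g s) (fun i hi => by
      rw [← iterate_succ_apply]; exact hB _ (by simpa using hi))
    have e := ((h s).cast (s3_nil _) (s3_nil _) (eval_mono q (hB 0 (Nat.zero_le _)))).on0 l
    cases b
    · refine (Eval.loopS (by simp) (Eval.caseF (l := l) (by simp) (e.cast (by simp) rfl le_rfl))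
        ih).cast rfl (by simp) ?_
      simp [Nat.mul_add]; omega
    · refine (Eval.loopS (by simp) (Eval.caseT (l := l) (by simp) (e.cast (by simp) rfl le_rfl))
        ih).cast rfl (by simp) ?_
      simp [Nat.mul_add]; omega

theorem iterate {σ : Type} {es : σ → List Bool} {g : σ → σ} {cnt : α → List Bool} {s0 : α → σ}
    (hg : PTe es (fun s => es (g s))) (hc : PTe ea cnt) (h0 : PTe ea (fun a => es (s0 a)))
    (r : Polynomial ℕ)
    (hr : ∀ a, ∀ i ≤ (cnt a).length, (es (g^[i] (s0 a))).length ≤ r.eval (ea a).length) :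
    PTe ea (fun a => es (g^[(cnt a).length] (s0 a))) := by
  obtain ⟨rc, hrc⟩ := hc.size
  obtain ⟨p1, q1, h1⟩ := hc.pair h0
  obtain ⟨p, q, h⟩ := hg
  refine ⟨.seq p1 (.seq split (foreach 1 (p.ren skip1) (p.ren skip1))),
    q1 + (2 * rc + 3) + ((q.comp r + 1) * rc + 1), fun a => ?_⟩
  have e := iter_loop h (r.eval (ea a).length) (cnt a).reverse (s0 a) (by simpa using hr a)
  refine (Eval.seq (h1 a) (Eval.seq (split_eval _ _) e)).cast rfl (by simp) ?_
  have := hrc a
  have := Nat.mul_le_mul_left (q.eval (r.eval (ea a).length) + 1) this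
  simp; omega

end PTe

end Pool.Agent.Lib.NP
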