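import Pool.Agent.Lib.NP.CookLevin

/-! Satisfiability with natural-number variables and no empty clause. -/

namespace Pool.Agent.Lib.NP

@[fun_prop] theorem PT.sprod {α β γ : Type} [Enc α] [Enc β] [Enc γ] {l : α → List β}
    {l' : α → List γ} (hl : PT l) (hl' : PT l') : PT (fun a => l a ×ˢ l' a) := by
  change PT (fun a => (l a).flatMap fun b => (l' a).map (fun c => (b, c)))
  fun_prop

@[fun_prop] theorem PT.natPair {α : Type} [Enc α] {f g : α → ℕ} (hf : PT f) (hg : PT g) :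
    PT (fun a => Nat.pair (f a) (g a)) := by
  unfold Nat.pair
  fun_prop

theorem CNF.sat_rename {V V' : Type} (ρ : V → V') (hρ : Function.Injective ρ) (φ : CNF V) :
    φ.Sat ↔ CNF.Sat (φ.map fun c => c.map fun l => (l.1, ρ l.2)) := by
  constructor
  · rintro ⟨τ, hτ⟩
    refine ⟨Function.extend ρ τ (fun _ => false), fun c hc => ?_⟩
    obtain ⟨d, hd, rfl⟩ := List.mem_map.1 hc
    obtain ⟨l, hl, hl'⟩ := hτ d hd
    exact ⟨_, List.mem_map.2 ⟨l, hl, rfl⟩, by simpa [hρ.extend_apply] using hl'⟩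
  · rintro ⟨τ, hτ⟩
    refine ⟨fun v => τ (ρ v), fun c hc => ?_⟩
    obtain ⟨l, hl, hl'⟩ := hτ _ (List.mem_map.2 ⟨c, hc, rfl⟩)
    obtain ⟨k, hk, rfl⟩ := List.mem_map.1 hl
    exact ⟨k, hk, hl'⟩

/-- Satisfiability of formulas whose variables are (unary) natural numbers is NP-hard. -/
theorem sat_nat : NPHardPT (CNF.Sat (V := ℕ)) :=
  cook_levin.reduce
    (g := fun φ => φ.map fun c => c.map fun l =>
      (l.1, Nat.pair l.2.1 (Nat.pair l.2.2.1 (Nat.pair l.2.2.2.1 l.2.2.2.2))))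
    (by fun_prop)
    (CNF.sat_rename (fun v : Var4 => Nat.pair v.1 (Nat.pair v.2.1 (Nat.pair v.2.2.1 v.2.2.2)))
      fun ⟨a, b, c, d⟩ ⟨a', b', c', d'⟩ h => by simpa [Nat.pair_eq_pair] using h)

/-- Replacement of a formula with an empty clause by an unsatisfiable one without. -/
def noEmpty (φ : CNF ℕ) : CNF ℕ := if [] ∈ φ then [[(true, 0)], [(false, 0)]] else φ

@[fun_prop] theorem PT.noEmpty {α : Type} [Enc α] {f : α → CNF ℕ} (hf : PT f) :
    PT (fun a => noEmpty (f a)) := by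
  unfold NP.noEmpty
  fun_prop

theorem nil_notMem_noEmpty (φ : CNF ℕ) : [] ∉ noEmpty φ := by
  unfold noEmpty; split_ifs with h
  · simp
  · exact h

theorem sat_noEmpty (φ : CNF ℕ) : φ.Sat ↔ (noEmpty φ).Sat := by
  unfold noEmpty; split_ifs with h
  · constructor
    · rintro ⟨τ, hτ⟩; simpa using hτ _ h
    · rintro ⟨τ, hτ⟩
      have h1 := hτ [(true, 0)] (by simp)
      have h2 := hτ [(false, 0)] (by simp)
      simp_all
  · rfl

end Pool.Agent.Lib.NP
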