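import Pool.Agent.Lib.NP.PTLib

/-! The tableau formula of an abstract stack machine given by local rules. -/

namespace Pool.Agent.Lib.NP

/-- Formulas in conjunctive normal form; the literal `(b, v)` is true when `v` has value `b`. -/
abbrev CNF (V : Type) := List (List (Bool × V))

def CNF.Sat {V : Type} (φ : CNF V) : Prop :=
  ∃ τ : V → Bool, ∀ c ∈ φ, ∃ l ∈ c, τ l.2 = l.1

abbrev Var4 := ℕ × ℕ × ℕ × ℕ

abbrev Rule := List (ℕ × ℕ × ℕ) × ℕ × List (List ℕ)

structure Loc where
  nK : ℕ
  D : ℕ
  nA : ℕ
  k0 : ℕ
  k1 : ℕ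
  q0 : ℕ
  c0 : ℕ
  c1 : ℕ
  cF : ℕ
  rules : List Rule

namespace Loc

variable (M : Loc)

def neg (t : ℕ) (r : Rule) : List (Bool × Var4) := r.1.map fun p => (false, (t, p))

def cellClauses (t : ℕ) (r : Rule) (k i : ℕ) : CNF Var4 :=
  if i < (r.2.2.getD k []).length then
    [neg t r ++ [(true, (t + 1, k, i, (r.2.2.getD k []).getD i 0))]]
  else (List.range M.nA).map fun a =>
    neg t r ++ [(false, (t, k, i - (r.2.2.getD k []).length + M.D, a)), (true, (t + 1, k, i, a))]

def stepClauses (T W : ℕ) : CNF Var4 :=
  (List.range T).flatMap fun t => M.rules.flatMap fun r =>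
    (neg t r ++ [(true, (t + 1, M.nK, 0, r.2.1))]) ::
      (List.range M.nK).flatMap fun k => (List.range W).flatMap fun i => M.cellClauses t r k i

def bitCode (b : Bool) : ℕ := bif b then M.c1 else M.c0

def witClauses (n j : ℕ) : CNF Var4 :=
  [[(false, (0, M.nK + 1, j, 0)), (true, (0, M.k0, n + 3 * j, M.c1))],
   [(false, (0, M.nK + 1, j, 0)), (false, (0, M.nK + 1, j, 1)), (true, (0, M.k0, n + 3 * j + 1, M.c1))],
   [(false, (0, M.nK + 1, j, 0)), (true, (0, M.nK + 1, j, 1)), (true, (0, M.k0, n + 3 * j + 1, M.c0))],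
   [(false, (0, M.nK + 1, j, 0)), (true, (0, M.k0, n + 3 * j + 2, M.c0))],
   [(true, (0, M.nK + 1, j, 0)), (true, (0, M.k0, n + 3 * j, 0))],
   [(true, (0, M.nK + 1, j, 0)), (true, (0, M.k0, n + 3 * j + 1, 0))],
   [(true, (0, M.nK + 1, j, 0)), (true, (0, M.k0, n + 3 * j + 2, 0))],
   [(false, (0, M.nK + 1, j + 1, 0)), (true, (0, M.nK + 1, j, 0))]]

def initClauses (pre : List Bool) (P W : ℕ) : CNF Var4 :=
  [(true, (0, M.nK, 0, M.q0))] :: [(false, (0, M.nK + 1, P, 0))] ::
    (((List.range M.nK).flatMap fun k =>
      if k = M.k0 then [] else (List.range W).map fun i => [(true, (0, k, i, 0))]) ++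
    ((List.range pre.length).map fun i => [(true, (0, M.k0, i, M.bitCode (pre.getD i false)))]) ++
    ((List.range (W + P)).flatMap fun j => M.witClauses pre.length j))

def cnf (pre : List Bool) (P T : ℕ) : CNF Var4 :=
  [(false, (T, M.k1, 0, M.cF))] ::
    (M.initClauses pre P ((T + 1) * M.D + 1) ++ M.stepClauses T ((T + 1) * M.D + 1))

theorem pt_cnf {α : Type} [Enc α] {pre : α → List Bool} {P T : α → ℕ} (h1 : PT pre) (h2 : PT P)
    (h3 : PT T) : PT (fun a => M.cnf (pre a) (P a) (T a)) := by
  unfold cnf initClauses stepClauses witClauses cellClauses neg bitCode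
  fun_prop

/-- `run y t k i` is the code of cell `i` of stack `k` at time `t` on input `y`
(`k = nK`, `i = 0` is the control state). -/
structure Spec (run : List Bool → ℕ → ℕ → ℕ → ℕ) : Prop where
  k0_lt : M.k0 < M.nK
  k1_lt : M.k1 < M.nK
  wf : ∀ r ∈ M.rules, ∀ p ∈ r.1, (p.1 = M.nK ∧ p.2.1 = 0) ∨ (p.1 < M.nK ∧ p.2.1 < M.D)
  init_q : ∀ y, run y 0 M.nK 0 = M.q0
  init_k0 : ∀ y i, run y 0 M.k0 i = (y[i]?).elim 0 M.bitCode
  init_k : ∀ y k i, k < M.nK → k ≠ M.k0 → run y 0 k i = 0
  ex : ∀ y t, ∃ r ∈ M.rules, ∀ p ∈ r.1, run y t p.1 p.2.1 = p.2.2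
  det_q : ∀ y t, ∀ r ∈ M.rules, (∀ p ∈ r.1, run y t p.1 p.2.1 = p.2.2) →
    run y (t + 1) M.nK 0 = r.2.1
  det_k : ∀ y t, ∀ r ∈ M.rules, (∀ p ∈ r.1, run y t p.1 p.2.1 = p.2.2) → ∀ k < M.nK, ∀ i,
    run y (t + 1) k i = if i < (r.2.2.getD k []).length then (r.2.2.getD k []).getD i 0
      else run y t k (i - (r.2.2.getD k []).length + M.D)
  bound : ∀ y t k i, k < M.nK → run y t k i < M.nA

theorem enc_bits_get (w : List Bool) (j : ℕ) :
    (enc w)[3 * j]? = (if j < w.length then some true else none) ∧
    (enc w)[3 * j + 1]? = w[j]? ∧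
    (enc w)[3 * j + 2]? = (if j < w.length then some false else none) := by
  induction w generalizing j with
  | nil => simp [enc_nil]
  | cons b w ih =>
    have e : enc (b :: w) = true :: b :: false :: enc w := rfl
    rcases j with _ | j
    · simp [e]
    · have := ih j
      simpa [e, Nat.mul_add] using this

variable {M} {run : List Bool → ℕ → ℕ → ℕ → ℕ}

theorem complete (h : M.Spec run) (pre w : List Bool) (P T : ℕ) (hw : w.length ≤ P)
    (hacc : run (pre ++ enc w) T M.k1 0 ≠ M.cF) : (M.cnf pre P T).Sat := by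
  set y := pre ++ enc w with hy
  let τ : Var4 → Bool := fun v =>
    if v.2.1 ≤ M.nK then decide (run y v.1 v.2.1 v.2.2.1 = v.2.2.2)
    else if v.2.2.2 = 0 then decide (v.2.2.1 < w.length) else w.getD v.2.2.1 false
  have hτ : ∀ t k i a, k ≤ M.nK → τ (t, k, i, a) = decide (run y t k i = a) := by
    intro t k i a hk; simp [τ, hk]
  have hY : ∀ j, τ (0, M.nK + 1, j, 0) = decide (j < w.length) := by intro j; simp [τ]
  have hZ : ∀ j, τ (0, M.nK + 1, j, 1) = w.getD j false := by intro j; simp [τ]
  have hk0 := h.k0_lt
  have hk1 := h.k1_lt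
  have hneg : ∀ t, ∀ r ∈ M.rules, ∀ c : List (Bool × Var4),
      ((∀ p ∈ r.1, run y t p.1 p.2.1 = p.2.2) → ∃ l ∈ c, τ l.2 = l.1) →
      ∃ l ∈ neg t r ++ c, τ l.2 = l.1 := by
    intro t r hr c hc
    by_cases hm : ∀ p ∈ r.1, run y t p.1 p.2.1 = p.2.2
    · obtain ⟨l, hl, hl'⟩ := hc hm
      exact ⟨l, List.mem_append_right _ hl, hl'⟩
    · push Not at hm
      obtain ⟨p, hp, hp'⟩ := hm
      refine ⟨(false, (t, p)), List.mem_append_left _ (List.mem_map.2 ⟨p, hp, rfl⟩), ?_⟩
      have : p.1 ≤ M.nK := by rcases h.wf r hr p hp with h | h <;> omega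
      rcases p with ⟨k, i, a⟩
      rw [hτ _ _ _ _ this]; simpa using hp'
  refine ⟨τ, fun c hc => ?_⟩
  simp only [cnf, initClauses, stepClauses, List.mem_cons, List.mem_append, List.mem_flatMap,
    List.mem_map, List.mem_range, List.cons_append] at hc
  rcases hc with rfl | rfl | rfl | ((⟨k, hk, hc⟩ | ⟨i, hi, rfl⟩) | ⟨j, hj, hc⟩) | ⟨t, ht, r, hr, hc⟩
  · simp [hτ _ _ _ _ hk1.le, hacc]
  · simp [hτ _ _ _ _ le_rfl, h.init_q]
  · simp [hY]; omega
  · split_ifs at hc with hkk
    · simp at hc
    · simp only [List.mem_map, List.mem_range] at hc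
      obtain ⟨i, -, rfl⟩ := hc
      simp [hτ _ _ _ _ hk.le, h.init_k y k i hk hkk]
  · simp [hτ _ _ _ _ hk0.le, h.init_k0, hy, List.getElem?_append_left hi, hi]
  · obtain ⟨e0, e1, e2⟩ := enc_bits_get w j
    have f0 : y[pre.length + 3 * j]? = (enc w)[3 * j]? := by
      simp [hy, List.getElem?_append_right]
    have f1 : y[pre.length + 3 * j + 1]? = (enc w)[3 * j + 1]? := by
      rw [Nat.add_assoc]; simp [hy, List.getElem?_append_right]
    have f2 : y[pre.length + 3 * j + 2]? = (enc w)[3 * j + 2]? := by
      rw [Nat.add_assoc]; simp [hy, List.getElem?_append_right]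
    rw [e0] at f0; rw [e1] at f1; rw [e2] at f2
    simp only [witClauses, List.mem_cons, List.not_mem_nil, or_false] at hc
    by_cases hjw : j < w.length
    · rcases hb : w[j] with _ | _ <;>
      rcases hc with rfl | rfl | rfl | rfl | rfl | rfl | rfl | rfl <;>
        simp [hY, hZ, hτ _ _ _ _ hk0.le, h.init_k0, f0, f1, f2, hjw, bitCode, hb]
    · rcases hc with rfl | rfl | rfl | rfl | rfl | rfl | rfl | rfl <;>
        simp [hY, hZ, hτ _ _ _ _ hk0.le, h.init_k0, f0, f1, f2, hjw]
      omega
  · rcases hc with rfl | ⟨k, hk, i, hi, hc⟩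
    · refine hneg t r hr _ fun hm => ?_
      simp [hτ _ _ _ _ le_rfl, h.det_q y t r hr hm]
    · unfold cellClauses at hc
      split_ifs at hc with hi'
      · rw [List.mem_singleton] at hc
        subst hc
        refine hneg t r hr _ fun hm => ?_
        have := h.det_k y t r hr hm k hk i
        rw [if_pos hi'] at this
        simp only [List.mem_singleton, exists_eq_left, hτ _ _ _ _ hk.le, this, decide_true]
      · simp only [List.mem_map, List.mem_range] at hc
        obtain ⟨a, -, rfl⟩ := hc
        refine hneg t r hr _ fun hm => ?_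
        have := h.det_k y t r hr hm k hk i
        rw [if_neg hi'] at this
        simp only [List.mem_cons, List.not_mem_nil, or_false, exists_eq_or_imp, exists_eq_left,
          hτ _ _ _ _ hk.le, this]
        generalize run y t k (i - (r.2.2.getD k []).length + M.D) = z
        by_cases ha : z = a <;> simp [ha]

theorem sound (h : M.Spec run) (pre : List Bool) (P T : ℕ) (hs : (M.cnf pre P T).Sat) :
    ∃ w : List Bool, w.length ≤ P ∧ run (pre ++ enc w) T M.k1 0 ≠ M.cF := by
  obtain ⟨τ, hτ⟩ := hs
  set W := (T + 1) * M.D + 1 with hW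
  have hinit : ∀ c ∈ M.initClauses pre P W, ∃ l ∈ c, τ l.2 = l.1 := fun c hc =>
    hτ c (List.mem_cons_of_mem _ (List.mem_append_left _ hc))
  have hstep : ∀ c ∈ M.stepClauses T W, ∃ l ∈ c, τ l.2 = l.1 := fun c hc =>
    hτ c (List.mem_cons_of_mem _ (List.mem_append_right _ hc))
  have hfin : τ (T, M.k1, 0, M.cF) = false := by
    simpa using hτ _ List.mem_cons_self
  have hP : τ (0, M.nK + 1, P, 0) = false := by
    simpa using hinit _ (List.mem_cons_of_mem _ List.mem_cons_self)
  have hwit : ∀ j < W + P, ∀ c ∈ M.witClauses pre.length j, ∃ l ∈ c, τ l.2 = l.1 := by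
    intro j hj c hc
    apply hinit
    simp only [initClauses, List.mem_cons, List.mem_append, List.mem_flatMap, List.mem_range]
    exact Or.inr (Or.inr (Or.inr ⟨j, hj, hc⟩))
  have hex : ∃ j, τ (0, M.nK + 1, j, 0) = false := ⟨P, hP⟩
  classical
  set m := Nat.find hex with hm
  have hmP : m ≤ P := Nat.find_min' hex hP
  have hlt : ∀ j < m, τ (0, M.nK + 1, j, 0) = true := fun j hj => by
    simpa using Nat.find_min hex hj
  have hge : ∀ j, m ≤ j → j ≤ W + P → τ (0, M.nK + 1, j, 0) = false := by
    intro j hj
    induction j, hj using Nat.le_induction with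
    | base => intro _; exact Nat.find_spec hex
    | succ j hj ih =>
      intro hj'
      have := hwit j (by omega) [(false, (0, M.nK + 1, j + 1, 0)), (true, (0, M.nK + 1, j, 0))]
        (by simp [witClauses])
      simpa [ih (by omega)] using this
  let w : List Bool := (List.range m).map fun j => τ (0, M.nK + 1, j, 1)
  have hwl : w.length = m := by simp [w]
  refine ⟨w, by omega, ?_⟩
  set y := pre ++ enc w with hy
  have key : ∀ t ≤ T, τ (t, M.nK, 0, run y t M.nK 0) = true ∧
      ∀ k < M.nK, ∀ i, i + t * M.D < W → τ (t, k, i, run y t k i) = true := by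
    intro t
    induction t with
    | zero =>
      intro _
      refine ⟨?_, fun k hk i hi => ?_⟩
      · rw [h.init_q]
        simpa using hinit _ List.mem_cons_self
      · by_cases hkk : k = M.k0
        · subst hkk
          rw [h.init_k0]
          by_cases hi' : i < pre.length
          · have := hinit [(true, (0, M.k0, i, M.bitCode (pre.getD i false)))] (by
              simp only [initClauses, List.mem_cons, List.mem_append, List.mem_map, List.mem_range]
              exact Or.inr (Or.inr (Or.inl (Or.inr ⟨i, hi', rfl⟩))))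
            simpa [hy, List.getElem?_append_left hi', hi'] using this
          · obtain ⟨j, hj⟩ : ∃ j, i = pre.length + 3 * j ∨ i = pre.length + 3 * j + 1 ∨
                i = pre.length + 3 * j + 2 := ⟨(i - pre.length) / 3, by omega⟩
            have hjW : j < W + P := by omega
            obtain ⟨e0, e1, e2⟩ := enc_bits_get w j
            have f0 : y[pre.length + 3 * j]? = (enc w)[3 * j]? := by
              simp [hy, List.getElem?_append_right]
            have f1 : y[pre.length + 3 * j + 1]? = (enc w)[3 * j + 1]? := by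
              rw [Nat.add_assoc]; simp [hy, List.getElem?_append_right]
            have f2 : y[pre.length + 3 * j + 2]? = (enc w)[3 * j + 2]? := by
              rw [Nat.add_assoc]; simp [hy, List.getElem?_append_right]
            rw [e0] at f0; rw [e1] at f1; rw [e2] at f2
            have hc := hwit j hjW
            simp only [witClauses, List.mem_cons, List.not_mem_nil, or_false, forall_eq_or_imp,
              forall_eq, exists_eq_or_imp, exists_eq_left] at hc
            by_cases hjm : j < m
            · have g := hlt j hjm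
              have g1 : w[j]? = some (τ (0, M.nK + 1, j, 1)) := by simp [w, hjm]
              rw [if_pos (by omega)] at f0 f2
              rw [g1] at f1
              rcases hb : τ (0, M.nK + 1, j, 1) with _ | _ <;> rw [hb] at f1 <;>
              simp only [g, hb, Bool.true_eq_false, Bool.false_eq_true, false_or, true_or] at hc <;>
              rcases hj with rfl | rfl | rfl <;> simp [f0, f1, f2, hc, bitCode]
            · have g := hge j (by omega) hjW.le
              have g1 : w[j]? = none := by simp; omega
              rw [if_neg (by omega)] at f0 f2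
              rw [g1] at f1
              simp only [g, Bool.false_eq_true, false_or, true_or] at hc
              rcases hj with rfl | rfl | rfl <;> simp [f0, f1, f2, hc]
        · rw [h.init_k y k i hk hkk]
          have := hinit [(true, (0, k, i, 0))] (by
            simp only [initClauses, List.mem_cons, List.mem_append, List.mem_flatMap,
              List.mem_range]
            refine Or.inr (Or.inr (Or.inl (Or.inl ⟨k, hk, ?_⟩)))
            rw [if_neg hkk]
            exact List.mem_map.2 ⟨i, by simpa using hi, rfl⟩)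
          simpa using this
    | succ t ih =>
      intro ht
      obtain ⟨ih1, ih2⟩ := ih (by omega)
      obtain ⟨r, hr, hm⟩ := h.ex y t
      have hD : (t + 1) * M.D ≤ T * M.D := Nat.mul_le_mul_right _ ht
      have hneg : ∀ c : List (Bool × Var4), neg t r ++ c ∈ M.stepClauses T W →
          ∃ l ∈ c, τ l.2 = l.1 := by
        intro c hc
        obtain ⟨l, hl, hl'⟩ := hstep _ hc
        rcases List.mem_append.1 hl with hl | hl
        · obtain ⟨p, hp, rfl⟩ := List.mem_map.1 hl
          have e := hm p hp
          rcases p with ⟨k, i, a⟩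
          simp only at e hl'
          rcases h.wf r hr _ hp with ⟨h1, h2⟩ | ⟨h1, h2⟩
          · simp only at h1 h2
            subst h1 h2
            rw [← e, ih1] at hl'; cases hl'
          · simp only at h1 h2
            rw [← e, ih2 k h1 i (by simp only [hW, Nat.add_mul] at hD ⊢; omega)] at hl'; cases hl'
        · exact ⟨l, hl, hl'⟩
      have hmem : ∀ k < M.nK, ∀ i < W, ∀ c ∈ M.cellClauses t r k i, c ∈ M.stepClauses T W := by
        intro k hk i hi c hc
        simp only [stepClauses, List.mem_flatMap, List.mem_range, List.mem_cons]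
        exact ⟨t, by omega, r, hr, Or.inr ⟨k, hk, i, hi, hc⟩⟩
      refine ⟨?_, fun k hk i hi => ?_⟩
      · rw [h.det_q y t r hr hm]
        have := hneg [(true, (t + 1, M.nK, 0, r.2.1))] (by
          simp only [stepClauses, List.mem_flatMap, List.mem_range, List.mem_cons]
          exact ⟨t, by omega, r, hr, Or.inl rfl⟩)
        simpa using this
      · rw [h.det_k y t r hr hm k hk i]
        split_ifs with hi'
        · have := hneg _ (hmem k hk i (by omega) _ (by
            unfold cellClauses; rw [if_pos hi']; exact List.mem_singleton_self _))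
          simpa using this
        · have := hneg [(false, (t, k, i - (r.2.2.getD k []).length + M.D,
              run y t k (i - (r.2.2.getD k []).length + M.D))),
            (true, (t + 1, k, i, run y t k (i - (r.2.2.getD k []).length + M.D)))]
            (hmem k hk i (by omega) _ (by
              unfold cellClauses; rw [if_neg hi']
              exact List.mem_map.2 ⟨_, List.mem_range.2 (h.bound y t k _ hk), rfl⟩))
          have e := ih2 k hk (i - (r.2.2.getD k []).length + M.D)
            (by simp only [Nat.add_mul] at hi; omega)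
          simp only [List.mem_cons, List.not_mem_nil, or_false, exists_eq_or_imp,
            exists_eq_left, e] at this
          simpa using this
  intro hacc
  have := (key T le_rfl).2 M.k1 h.k1_lt 0 (by simp only [hW, Nat.add_mul]; omega)
  rw [hacc, hfin] at this
  cases this

end Loc

end Pool.Agent.Lib.NP
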